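import Mathlib

set_option autoImplicit false
open Finset

namespace Pool.Agent.Lib.MP_663568_nt.Katai

/-! ### Elementary lemmas on windows -/

lemma sum_windows_le (p : ℕ) (hp : 0 < p) (H X : ℕ) (b : ℕ → ℝ) (hb : ∀ m, 0 ≤ b m) :
    ∑ n ∈ range X, ∑ m ∈ Ioc (n / p) ((n + H) / p), b m
      ≤ H * ∑ m ∈ Icc 1 ((X + H) / p), b m := by
  have h1 : ∀ n ∈ range X, ∑ m ∈ Ioc (n / p) ((n + H) / p), b m
      = ∑ m ∈ Icc 1 ((X + H) / p), if (n < m * p ∧ m * p ≤ n + H) then b m else 0 := by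
    intro n hn
    rw [mem_range] at hn
    rw [← sum_filter]
    apply sum_congr _ (fun _ _ => rfl)
    ext m
    simp only [mem_Ioc, mem_filter, mem_Icc]
    rw [Nat.div_lt_iff_lt_mul hp, Nat.le_div_iff_mul_le hp, Nat.le_div_iff_mul_le hp]
    constructor
    · rintro ⟨h1, h2⟩
      refine ⟨⟨?_, by omega⟩, h1, h2⟩
      rcases Nat.eq_zero_or_pos m with rfl | h
      · simp at h1
      · exact h
    · rintro ⟨_, h1, h2⟩
      exact ⟨h1, h2⟩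
  rw [sum_congr rfl h1, sum_comm, mul_sum]
  apply sum_le_sum
  intro m _
  rw [← sum_filter, sum_const, nsmul_eq_mul]
  apply mul_le_mul_of_nonneg_right _ (hb m)
  norm_cast
  calc #{n ∈ range X | n < m * p ∧ m * p ≤ n + H} ≤ #(Ico (m * p - H) (m * p)) := by
        apply card_le_card
        intro n
        simp only [mem_filter, mem_range, mem_Ico]
        omega
    _ ≤ H := by
        rw [Nat.card_Ico]; omega

lemma smooth (x : ℕ → ℂ) (hx : ∀ n, ‖x n‖ ≤ 1) (a b L : ℕ) (hab : a ≤ b) (hL : 0 < L) :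
    ‖∑ m ∈ Ioc a b, x m‖
      ≤ (1 / (L : ℝ)) * ∑ j ∈ Ico a b, ‖∑ l ∈ Icc 1 L, x (j + l)‖ + 2 * L := by
  have key : ∀ A B : ℕ, A ≤ B → ‖∑ m ∈ Ico A B, x m‖ ≤ ((B - A : ℕ) : ℝ) := by
    intro A B _
    calc ‖∑ m ∈ Ico A B, x m‖ ≤ ∑ m ∈ Ico A B, ‖x m‖ := norm_sum_le _ _
      _ ≤ ∑ m ∈ Ico A B, (1 : ℝ) := sum_le_sum (fun m _ => hx m)
      _ = ((B - A : ℕ) : ℝ) := by simp
  have h1 : ∀ l ∈ Icc 1 L, ‖∑ m ∈ Ioc a b, x m - ∑ j ∈ Ico a b, x (j + l)‖ ≤ 2 * L := by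
    intro l hl
    rw [mem_Icc] at hl
    have e1 : ∑ m ∈ Ioc a b, x m = ∑ m ∈ Ico (a + 1) (b + 1), x m := by
      apply sum_congr _ (fun _ _ => rfl)
      ext m; simp only [mem_Ioc, mem_Ico]; omega
    have e2 : ∑ j ∈ Ico a b, x (j + l) = ∑ m ∈ Ico (a + l) (b + l), x m := by
      rw [sum_Ico_add' x a b l]
    have e3 : ∑ m ∈ Ico (a + 1) (b + 1), x m + ∑ m ∈ Ico (b + 1) (b + l), x m
        = ∑ m ∈ Ico (a + 1) (a + l), x m + ∑ m ∈ Ico (a + l) (b + l), x m := by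
      rw [sum_Ico_consecutive _ (by omega) (by omega), sum_Ico_consecutive _ (by omega) (by omega)]
    have e4 : ∑ m ∈ Ioc a b, x m - ∑ j ∈ Ico a b, x (j + l)
        = ∑ m ∈ Ico (a + 1) (a + l), x m - ∑ m ∈ Ico (b + 1) (b + l), x m := by
      rw [e1, e2]
      linear_combination e3
    rw [e4]
    have k1 := key (a + 1) (a + l) (by omega)
    have k2 := key (b + 1) (b + l) (by omega)
    have c1 : ((a + l - (a + 1) : ℕ) : ℝ) ≤ L := by norm_cast; omega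
    have c2 : ((b + l - (b + 1) : ℕ) : ℝ) ≤ L := by norm_cast; omega
    calc _ ≤ ‖∑ m ∈ Ico (a + 1) (a + l), x m‖ + ‖∑ m ∈ Ico (b + 1) (b + l), x m‖ := norm_sub_le _ _
      _ ≤ 2 * L := by linarith
  have hLr : (0 : ℝ) < L := by exact_mod_cast hL
  have h2 : (L : ℝ) * ‖∑ m ∈ Ioc a b, x m‖
      ≤ ∑ j ∈ Ico a b, ‖∑ l ∈ Icc 1 L, x (j + l)‖ + 2 * L * L := by
    have e : (L : ℂ) * ∑ m ∈ Ioc a b, x m
        = ∑ l ∈ Icc 1 L, (∑ m ∈ Ioc a b, x m - ∑ j ∈ Ico a b, x (j + l))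
          + ∑ j ∈ Ico a b, ∑ l ∈ Icc 1 L, x (j + l) := by
      rw [sum_sub_distrib, sum_comm (s := Ico a b)]
      simp
    calc (L : ℝ) * ‖∑ m ∈ Ioc a b, x m‖ = ‖(L : ℂ) * ∑ m ∈ Ioc a b, x m‖ := by
          rw [norm_mul]; simp
      _ ≤ ‖∑ l ∈ Icc 1 L, (∑ m ∈ Ioc a b, x m - ∑ j ∈ Ico a b, x (j + l))‖
          + ‖∑ j ∈ Ico a b, ∑ l ∈ Icc 1 L, x (j + l)‖ := by
          rw [e]; exact norm_add_le _ _
      _ ≤ ∑ l ∈ Icc 1 L, (2 * (L : ℝ)) + ∑ j ∈ Ico a b, ‖∑ l ∈ Icc 1 L, x (j + l)‖ := by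
          apply add_le_add
          · exact (norm_sum_le _ _).trans (sum_le_sum h1)
          · exact norm_sum_le _ _
      _ = ∑ j ∈ Ico a b, ‖∑ l ∈ Icc 1 L, x (j + l)‖ + 2 * L * L := by
          rw [sum_const, nsmul_eq_mul]; simp; ring
  rw [← sub_nonneg] at h2 ⊢
  have : (1 / (L : ℝ)) * ∑ j ∈ Ico a b, ‖∑ l ∈ Icc 1 L, x (j + l)‖ + 2 * L - ‖∑ m ∈ Ioc a b, x m‖
      = (1 / (L : ℝ)) * (∑ j ∈ Ico a b, ‖∑ l ∈ Icc 1 L, x (j + l)‖ + 2 * L * L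
        - (L : ℝ) * ‖∑ m ∈ Ioc a b, x m‖) := by
    field_simp
  rw [this]
  positivity

/-! ### Duality -/

lemma exists_unit (z : ℂ) : ∃ u : ℂ, ‖u‖ ≤ 1 ∧ u * z = (‖z‖ : ℂ) := by
  by_cases hz : z = 0
  · exact ⟨0, by simp, by simp [hz]⟩
  · refine ⟨(starRingEnd ℂ z) / (‖z‖ : ℂ), ?_, ?_⟩
    · rw [norm_div]; simp [hz]
    · have h : (‖z‖ : ℂ) ≠ 0 := by exact_mod_cast norm_ne_zero_iff.mpr hz
      field_simp
      rw [mul_comm, Complex.mul_conj, Complex.normSq_eq_norm_sq]; push_cast; ring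

lemma duality (Q : Finset ℕ) (L : ℕ) (η : ℝ) (hη : 0 ≤ η) (a : ℕ → ℂ) (ha : ∀ n, ‖a n‖ ≤ 1)
    (F : ℕ → ℕ → ℂ) (hF : ∀ p n, ‖F p n‖ ≤ 1)
    (horth : ∀ p ∈ Q, ∀ q ∈ Q, p ≠ q →
      ‖∑ l ∈ Icc 1 L, F p l * (starRingEnd ℂ) (F q l)‖ ≤ η * L) :
    ∑ p ∈ Q, ‖∑ l ∈ Icc 1 L, F p l * a l‖ ≤ L * √((Q.card : ℝ) + η * (Q.card : ℝ) ^ 2) := by
  choose u hu1 hu2 using exists_unit
  set v : ℕ → ℂ := fun p => ∑ l ∈ Icc 1 L, F p l * a l with hv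
  set U : ℕ → ℂ := fun p => u (v p) with hU
  have h1 : ((∑ p ∈ Q, ‖v p‖ : ℝ) : ℂ) = ∑ l ∈ Icc 1 L, a l * ∑ p ∈ Q, U p * F p l := by
    push_cast
    rw [sum_congr rfl (fun p _ => (hu2 (v p)).symm)]
    simp only [hv, mul_sum]
    rw [sum_comm]
    apply sum_congr rfl; intro l _
    apply sum_congr rfl; intro p _
    simp only [hU, hv]; ring
  have h2 : ∑ p ∈ Q, ‖v p‖ ≤ ∑ l ∈ Icc 1 L, ‖∑ p ∈ Q, U p * F p l‖ := by
    have h0 : 0 ≤ ∑ p ∈ Q, ‖v p‖ := sum_nonneg (fun _ _ => norm_nonneg _)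
    calc ∑ p ∈ Q, ‖v p‖ = ‖((∑ p ∈ Q, ‖v p‖ : ℝ) : ℂ)‖ := by
          rw [Complex.norm_real, Real.norm_of_nonneg h0]
      _ = ‖∑ l ∈ Icc 1 L, a l * ∑ p ∈ Q, U p * F p l‖ := by rw [h1]
      _ ≤ ∑ l ∈ Icc 1 L, ‖a l * ∑ p ∈ Q, U p * F p l‖ := norm_sum_le _ _
      _ ≤ ∑ l ∈ Icc 1 L, ‖∑ p ∈ Q, U p * F p l‖ := by
          apply sum_le_sum; intro l _
          rw [norm_mul]
          exact mul_le_of_le_one_left (norm_nonneg _) (ha l)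
  have h3 : ∑ l ∈ Icc 1 L, ‖∑ p ∈ Q, U p * F p l‖ ^ 2
      ≤ (L : ℝ) * ((Q.card : ℝ) + η * (Q.card : ℝ) ^ 2) := by
    have e1 : ((∑ l ∈ Icc 1 L, ‖∑ p ∈ Q, U p * F p l‖ ^ 2 : ℝ) : ℂ)
        = ∑ p ∈ Q, ∑ q ∈ Q, (U p * (starRingEnd ℂ) (U q)) *
          ∑ l ∈ Icc 1 L, F p l * (starRingEnd ℂ) (F q l) := by
      push_cast
      have : ∀ l, ((‖∑ p ∈ Q, U p * F p l‖ : ℂ)) ^ 2
          = ∑ p ∈ Q, ∑ q ∈ Q, (U p * (starRingEnd ℂ) (U q)) * (F p l * (starRingEnd ℂ) (F q l)) := by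
        intro l
        rw [← Complex.mul_conj', map_sum, sum_mul_sum]
        apply sum_congr rfl; intro p _
        apply sum_congr rfl; intro q _
        rw [map_mul]; ring
      rw [sum_congr rfl (fun l _ => this l), sum_comm]
      apply sum_congr rfl; intro p _
      rw [sum_comm]
      apply sum_congr rfl; intro q _
      rw [mul_sum]
    have h0 : 0 ≤ ∑ l ∈ Icc 1 L, ‖∑ p ∈ Q, U p * F p l‖ ^ 2 :=
      sum_nonneg (fun _ _ => by positivity)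
    calc ∑ l ∈ Icc 1 L, ‖∑ p ∈ Q, U p * F p l‖ ^ 2
        = ‖((∑ l ∈ Icc 1 L, ‖∑ p ∈ Q, U p * F p l‖ ^ 2 : ℝ) : ℂ)‖ := by
          rw [Complex.norm_real, Real.norm_of_nonneg h0]
      _ ≤ ∑ p ∈ Q, ∑ q ∈ Q, ‖(U p * (starRingEnd ℂ) (U q)) *
          ∑ l ∈ Icc 1 L, F p l * (starRingEnd ℂ) (F q l)‖ := by
          rw [e1]
          exact (norm_sum_le _ _).trans (sum_le_sum (fun p _ => norm_sum_le _ _))
      _ ≤ ∑ p ∈ Q, ∑ q ∈ Q, ((if p = q then (L : ℝ) else 0) + η * L) := by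
          apply sum_le_sum; intro p hp
          apply sum_le_sum; intro q hq
          have hUU : ‖U p * (starRingEnd ℂ) (U q)‖ ≤ 1 := by
            rw [norm_mul, RCLike.norm_conj]
            exact mul_le_one₀ (hu1 _) (norm_nonneg _) (hu1 _)
          rw [norm_mul]
          by_cases hpq : p = q
          · subst hpq
            rw [if_pos rfl]
            have : ‖∑ l ∈ Icc 1 L, F p l * (starRingEnd ℂ) (F p l)‖ ≤ L := by
              calc _ ≤ ∑ l ∈ Icc 1 L, ‖F p l * (starRingEnd ℂ) (F p l)‖ := norm_sum_le _ _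
                _ ≤ ∑ l ∈ Icc 1 L, (1 : ℝ) := by
                    apply sum_le_sum; intro l _
                    rw [norm_mul, RCLike.norm_conj]
                    exact mul_le_one₀ (hF _ _) (norm_nonneg _) (hF _ _)
                _ = L := by simp
            calc _ ≤ 1 * (L : ℝ) := mul_le_mul hUU this (norm_nonneg _) zero_le_one
              _ ≤ L + η * L := by
                have : 0 ≤ η * L := by positivity
                linarith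
          · rw [if_neg hpq, zero_add]
            calc _ ≤ 1 * (η * L) := mul_le_mul hUU (horth p hp q hq hpq) (norm_nonneg _) zero_le_one
              _ = η * L := one_mul _
      _ = (L : ℝ) * ((Q.card : ℝ) + η * (Q.card : ℝ) ^ 2) := by
          simp only [sum_add_distrib, sum_ite_eq, sum_const, nsmul_eq_mul]
          rw [sum_ite_mem, inter_self, sum_const, nsmul_eq_mul]
          ring
  have h4 : (∑ l ∈ Icc 1 L, ‖∑ p ∈ Q, U p * F p l‖) ^ 2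
      ≤ (L : ℝ) * ∑ l ∈ Icc 1 L, ‖∑ p ∈ Q, U p * F p l‖ ^ 2 := by
    have := sq_sum_le_card_mul_sum_sq (s := Icc 1 L) (f := fun l => ‖∑ p ∈ Q, U p * F p l‖)
    simpa using this
  have h5 : (∑ p ∈ Q, ‖v p‖) ^ 2 ≤ (L : ℝ) ^ 2 * ((Q.card : ℝ) + η * (Q.card : ℝ) ^ 2) := by
    have h0 : 0 ≤ ∑ p ∈ Q, ‖v p‖ := sum_nonneg (fun _ _ => norm_nonneg _)
    calc (∑ p ∈ Q, ‖v p‖) ^ 2 ≤ (∑ l ∈ Icc 1 L, ‖∑ p ∈ Q, U p * F p l‖) ^ 2 := by gcongr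
      _ ≤ (L : ℝ) * ∑ l ∈ Icc 1 L, ‖∑ p ∈ Q, U p * F p l‖ ^ 2 := h4
      _ ≤ (L : ℝ) * ((L : ℝ) * ((Q.card : ℝ) + η * (Q.card : ℝ) ^ 2)) := by gcongr
      _ = _ := by ring
  have h6 := Real.le_sqrt_of_sq_le h5
  rwa [Real.sqrt_mul (by positivity), Real.sqrt_sq (by positivity)] at h6

/-- Same with suprema over a family. -/
lemma duality_iSup {ι : Type*} (Q : Finset ℕ) (L : ℕ) (η : ℝ) (hη : 0 ≤ η) (a : ℕ → ℂ)
    (ha : ∀ n, ‖a n‖ ≤ 1) (F : ι → ℕ → ℕ → ℂ) (hF : ∀ i p n, ‖F i p n‖ ≤ 1)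
    (horth : ∀ p ∈ Q, ∀ q ∈ Q, p ≠ q → ∀ i i',
      ‖∑ l ∈ Icc 1 L, F i p l * (starRingEnd ℂ) (F i' q l)‖ ≤ η * L) :
    ∑ p ∈ Q, ⨆ i, ‖∑ l ∈ Icc 1 L, F i p l * a l‖
      ≤ L * √((Q.card : ℝ) + η * (Q.card : ℝ) ^ 2) := by
  rcases isEmpty_or_nonempty ι with hι | hι
  · simp only [Real.iSup_of_isEmpty, sum_const_zero]; positivity
  apply le_of_forall_pos_le_add
  intro δ hδ
  have hex : ∀ p : ℕ, ∃ i : ι, (⨆ i, ‖∑ l ∈ Icc 1 L, F i p l * a l‖) - δ / (Q.card + 1)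
      < ‖∑ l ∈ Icc 1 L, F i p l * a l‖ := by
    intro p
    apply exists_lt_of_lt_ciSup
    have : 0 < δ / ((Q.card : ℝ) + 1) := by positivity
    linarith
  choose i hi using hex
  have h1 := duality Q L η hη a ha (fun p => F (i p) p) (fun p n => hF _ _ _)
    (fun p hp q hq hpq => horth p hp q hq hpq _ _)
  calc ∑ p ∈ Q, ⨆ i, ‖∑ l ∈ Icc 1 L, F i p l * a l‖
      ≤ ∑ p ∈ Q, (‖∑ l ∈ Icc 1 L, F (i p) p l * a l‖ + δ / (Q.card + 1)) := by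
        apply sum_le_sum; intro p _; linarith [hi p]
    _ = ∑ p ∈ Q, ‖∑ l ∈ Icc 1 L, F (i p) p l * a l‖ + Q.card * (δ / (Q.card + 1)) := by
        rw [sum_add_distrib, sum_const, nsmul_eq_mul]
    _ ≤ _ := by
        have : (Q.card : ℝ) * (δ / (Q.card + 1)) ≤ δ := by
          rw [mul_div_assoc', div_le_iff₀ (by positivity)]
          nlinarith
        linarith

end Pool.Agent.Lib.MP_663568_nt.Katai
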