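import Mathlib

set_option autoImplicit false
open Finset

namespace Pool.Agent.Lib.MP_663568_nt.Katai

/-- number of members of `P` dividing `n` -/
noncomputable def om (P : Finset ℕ) (n : ℕ) : ℝ := ∑ p ∈ P, if p ∣ n then (1 : ℝ) else 0

/-- sum of reciprocals -/
noncomputable def WW (P : Finset ℕ) : ℝ := ∑ p ∈ P, (1 : ℝ) / p

lemma WW_nonneg (P : Finset ℕ) : 0 ≤ WW P := sum_nonneg (fun _ _ => by positivity)

lemma sum_dvd (p Y : ℕ) : ∑ m ∈ Icc 1 Y, (if p ∣ m then (1 : ℝ) else 0) = ((Y / p : ℕ) : ℝ) := by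
  rw [← sum_filter, sum_const, nsmul_eq_mul, mul_one]
  norm_cast
  exact Nat.Ioc_filter_dvd_card_eq_div Y p

lemma div_le_real (Y p : ℕ) : ((Y / p : ℕ) : ℝ) ≤ (Y : ℝ) / p := Nat.cast_div_le

lemma div_ge_real (Y p : ℕ) (hp : 0 < p) : (Y : ℝ) / p - 1 ≤ ((Y / p : ℕ) : ℝ) := by
  have h := Nat.lt_div_mul_add hp (a := Y)
  have h' : (Y : ℝ) < ((Y / p : ℕ) : ℝ) * p + p := by exact_mod_cast h
  have hpr : (0 : ℝ) < p := by exact_mod_cast hp
  rw [sub_le_iff_le_add, div_le_iff₀ hpr]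
  linarith [h']

lemma turan_kubilius (P : Finset ℕ) (hP : ∀ p ∈ P, p.Prime) (Y : ℕ) :
    ∑ m ∈ Icc 1 Y, (om P m - WW P) ^ 2 ≤ WW P * Y + 2 * WW P * (P.card : ℝ) := by
  have hsq : ∀ m, (om P m) ^ 2 = ∑ p ∈ P, ∑ q ∈ P,
      (if p ∣ m ∧ q ∣ m then (1 : ℝ) else 0) := by
    intro m
    rw [om, sq, sum_mul_sum]
    apply sum_congr rfl; intro p _
    apply sum_congr rfl; intro q _
    by_cases h1 : p ∣ m <;> by_cases h2 : q ∣ m <;> simp [h1, h2]
  have hpq : ∀ p ∈ P, ∀ q ∈ P, ∑ m ∈ Icc 1 Y, (if p ∣ m ∧ q ∣ m then (1 : ℝ) else 0)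
      ≤ (Y : ℝ) * (1 / p) * (1 / q) + (if p = q then (Y : ℝ) / p else 0) := by
    intro p hp q hq
    by_cases h : p = q
    · subst h
      simp only [and_self, if_true]
      rw [sum_dvd]
      have := div_le_real Y p
      have h2 : 0 ≤ (Y : ℝ) * (1 / p) * (1 / p) := by positivity
      linarith
    · rw [if_neg h, add_zero]
      have hc : Nat.Coprime p q := (Nat.coprime_primes (hP p hp) (hP q hq)).mpr h
      have e : ∀ m, (p ∣ m ∧ q ∣ m) ↔ p * q ∣ m := by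
        intro m
        constructor
        · rintro ⟨h1, h2⟩; exact hc.mul_dvd_of_dvd_of_dvd h1 h2
        · intro h1; exact ⟨(dvd_mul_right p q).trans h1, (dvd_mul_left q p).trans h1⟩
      simp only [e]
      rw [sum_dvd]
      have := div_le_real Y (p * q)
      push_cast at this
      calc _ ≤ (Y : ℝ) / (p * q) := this
        _ = _ := by field_simp
  have h1 : ∑ m ∈ Icc 1 Y, (om P m) ^ 2 ≤ (WW P) ^ 2 * Y + WW P * Y := by
    calc ∑ m ∈ Icc 1 Y, (om P m) ^ 2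
        = ∑ p ∈ P, ∑ q ∈ P, ∑ m ∈ Icc 1 Y, (if p ∣ m ∧ q ∣ m then (1 : ℝ) else 0) := by
          rw [sum_congr rfl (fun m _ => hsq m), sum_comm]
          apply sum_congr rfl; intro p _
          rw [sum_comm]
      _ ≤ ∑ p ∈ P, ∑ q ∈ P, ((Y : ℝ) * (1 / p) * (1 / q) + (if p = q then (Y : ℝ) / p else 0)) := by
          apply sum_le_sum; intro p hp
          apply sum_le_sum; intro q hq
          exact hpq p hp q hq
      _ = (WW P) ^ 2 * Y + WW P * Y := by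
          simp only [sum_add_distrib, sum_ite_eq]
          rw [sum_ite_mem, inter_self]
          simp only [← mul_sum, WW, ← sum_mul]
          have : ∑ i ∈ P, (Y : ℝ) / i = (∑ p ∈ P, (1 : ℝ) / p) * Y := by
            rw [sum_mul]; apply sum_congr rfl; intro i _; ring
          rw [this]; ring
  have h2 : WW P * Y - (P.card : ℝ) ≤ ∑ m ∈ Icc 1 Y, om P m := by
    calc WW P * Y - (P.card : ℝ) = ∑ p ∈ P, ((Y : ℝ) / p - 1) := by
          rw [sum_sub_distrib, WW, sum_mul]; simp; apply sum_congr rfl; intro i _; ring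
      _ ≤ ∑ p ∈ P, ((Y / p : ℕ) : ℝ) := by
          apply sum_le_sum; intro p hp
          exact div_ge_real Y p (hP p hp).pos
      _ = ∑ m ∈ Icc 1 Y, om P m := by
          simp only [om]
          rw [sum_comm]
          apply sum_congr rfl; intro p _
          rw [sum_dvd]
  have h3 : ∑ m ∈ Icc 1 Y, (om P m - WW P) ^ 2
      = ∑ m ∈ Icc 1 Y, (om P m) ^ 2 - 2 * WW P * ∑ m ∈ Icc 1 Y, om P m + (WW P) ^ 2 * Y := by
    have : ∀ m, (om P m - WW P) ^ 2 = (om P m) ^ 2 - 2 * WW P * om P m + (WW P) ^ 2 := by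
      intro m; ring
    simp only [this, sum_add_distrib, sum_sub_distrib, ← mul_sum]
    simp; ring
  rw [h3]
  have h4 := mul_le_mul_of_nonneg_left h2 (mul_nonneg zero_le_two (WW_nonneg P))
  nlinarith [h1, h4]

/-- `L¹` version. -/
lemma turan_kubilius_one (P : Finset ℕ) (hP : ∀ p ∈ P, p.Prime) (Y : ℕ)
    (hY : 2 * P.card ≤ Y) :
    ∑ m ∈ Icc 1 Y, |om P m - WW P| ≤ √(2 * WW P) * Y := by
  have h1 := turan_kubilius P hP Y
  have h2 : (∑ m ∈ Icc 1 Y, |om P m - WW P|) ^ 2 ≤ (Y : ℝ) * ∑ m ∈ Icc 1 Y, (om P m - WW P) ^ 2 := by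
    have := sq_sum_le_card_mul_sum_sq (s := Icc 1 Y) (f := fun m => |om P m - WW P|)
    simpa using this
  have hW := WW_nonneg P
  have hY' : 2 * (P.card : ℝ) ≤ Y := by exact_mod_cast hY
  have h3 : (∑ m ∈ Icc 1 Y, |om P m - WW P|) ^ 2 ≤ (2 * WW P) * (Y : ℝ) ^ 2 := by
    calc _ ≤ (Y : ℝ) * ∑ m ∈ Icc 1 Y, (om P m - WW P) ^ 2 := h2
      _ ≤ (Y : ℝ) * (WW P * Y + 2 * WW P * (P.card : ℝ)) := by gcongr
      _ ≤ (Y : ℝ) * (WW P * Y + WW P * Y) := by
          apply mul_le_mul_of_nonneg_left _ (by positivity)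
          nlinarith
      _ = _ := by ring
  have h4 := Real.le_sqrt_of_sq_le h3
  rwa [Real.sqrt_mul (by positivity), Real.sqrt_sq (by positivity)] at h4

lemma sum_inv_sq_primes (P : Finset ℕ) (hP : ∀ p ∈ P, p.Prime) :
    ∑ p ∈ P, (1 : ℝ) / (p : ℝ) ^ 2 ≤ 1 := by
  have h : ∀ N : ℕ, 2 ≤ N → ∑ n ∈ Ico 2 N, (1 : ℝ) / (n : ℝ) ^ 2 ≤ 1 - 1 / ((N : ℝ) - 1) := by
    intro N hN
    induction N, hN using Nat.le_induction with
    | base => norm_num
    | succ N hN ih =>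
      rw [sum_Ico_succ_top hN]
      have hN' : (2 : ℝ) ≤ N := by exact_mod_cast hN
      push_cast
      have h1 : (0 : ℝ) < (N : ℝ) - 1 := by linarith
      have h2 : (1 : ℝ) / (N : ℝ) ^ 2 ≤ 1 / ((N : ℝ) - 1) - 1 / ((N : ℝ) + 1 - 1) := by
        rw [div_sub_div _ _ (by positivity) (by linarith), div_le_div_iff₀ (by positivity) (by nlinarith)]
        ring_nf
        nlinarith
      linarith
  obtain ⟨N, hN⟩ : ∃ N, ∀ p ∈ P, p < N := ⟨P.sup id + 1, fun p hp => by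
    have := le_sup (f := id) hp
    simp at this; omega⟩
  calc ∑ p ∈ P, (1 : ℝ) / (p : ℝ) ^ 2 ≤ ∑ n ∈ Ico 2 (N + 2), (1 : ℝ) / (n : ℝ) ^ 2 := by
        apply sum_le_sum_of_subset_of_nonneg
        · intro p hp
          rw [mem_Ico]
          exact ⟨(hP p hp).two_le, by have := hN p hp; omega⟩
        · intro _ _ _; positivity
    _ ≤ 1 - 1 / (((N + 2 : ℕ) : ℝ) - 1) := h _ (by omega)
    _ ≤ 1 := by
        have : (0 : ℝ) ≤ 1 / (((N + 2 : ℕ) : ℝ) - 1) := by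
          push_cast
          apply div_nonneg zero_le_one
          have : (0 : ℝ) ≤ N := by positivity
          linarith
        linarith

lemma sum_inv_sqrt (Y : ℕ) : ∑ m ∈ Icc 1 Y, (1 : ℝ) / √m ≤ 2 * √Y := by
  induction Y with
  | zero => simp
  | succ Y ih =>
    rw [sum_Icc_succ_top (by omega)]
    have h0 : (0 : ℝ) < √((Y + 1 : ℕ) : ℝ) := Real.sqrt_pos.mpr (by positivity)
    have h1 : 1 / √((Y + 1 : ℕ) : ℝ) ≤ 2 * √((Y + 1 : ℕ) : ℝ) - 2 * √(Y : ℝ) := by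
      rw [div_le_iff₀ h0]
      have e1 : √((Y + 1 : ℕ) : ℝ) * √((Y + 1 : ℕ) : ℝ) = (Y : ℝ) + 1 := by
        rw [Real.mul_self_sqrt (by positivity)]; push_cast; ring
      have e2 : √(Y : ℝ) * √(Y : ℝ) = Y := Real.mul_self_sqrt (by positivity)
      nlinarith [sq_nonneg (√((Y + 1 : ℕ) : ℝ) - √(Y : ℝ))]
    linarith

end Pool.Agent.Lib.MP_663568_nt.Katai
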