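import Mathlib
import Pool.Agent.Lib.MP_663568_nt.Katai
import Pool.Agent.Lib.MP_663568_nt.TK

set_option autoImplicit false
open Finset

namespace Pool.Agent.Lib.MP_663568_nt.Katai

variable {ι : Type*}

/-- the supremum over the family of the window sums -/
noncomputable def GG (F : ι → ℕ → ℂ) (a : ℕ → ℂ) (H n : ℕ) : ℝ :=
  ⨆ i, ‖∑ h ∈ Icc 1 H, F i (n + h) * a (n + h)‖

lemma norm_window_le (F : ℕ → ℂ) (a : ℕ → ℂ) (hF : ∀ n, ‖F n‖ ≤ 1) (ha : ∀ n, ‖a n‖ ≤ 1)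
    (H n : ℕ) : ‖∑ h ∈ Icc 1 H, F (n + h) * a (n + h)‖ ≤ H := by
  calc _ ≤ ∑ h ∈ Icc 1 H, ‖F (n + h) * a (n + h)‖ := norm_sum_le _ _
    _ ≤ ∑ h ∈ Icc 1 H, (1 : ℝ) := by
        apply sum_le_sum; intro h _
        rw [norm_mul]; exact mul_le_one₀ (hF _) (norm_nonneg _) (ha _)
    _ = H := by simp

lemma GG_bdd (F : ι → ℕ → ℂ) (a : ℕ → ℂ) (hF : ∀ i n, ‖F i n‖ ≤ 1) (ha : ∀ n, ‖a n‖ ≤ 1)
    (H n : ℕ) : BddAbove (Set.range fun i => ‖∑ h ∈ Icc 1 H, F i (n + h) * a (n + h)‖) :=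
  ⟨H, by rintro _ ⟨i, rfl⟩; exact norm_window_le (F i) a (hF i) ha H n⟩

lemma GG_nonneg (F : ι → ℕ → ℂ) (a : ℕ → ℂ) (H n : ℕ) : 0 ≤ GG F a H n :=
  Real.iSup_nonneg (fun _ => norm_nonneg _)

lemma GG_le (F : ι → ℕ → ℂ) (a : ℕ → ℂ) (hF : ∀ i n, ‖F i n‖ ≤ 1) (ha : ∀ n, ‖a n‖ ≤ 1)
    (H n : ℕ) : GG F a H n ≤ H :=
  Real.iSup_le (fun i => norm_window_le (F i) a (hF i) ha H n) (by positivity)

lemma le_GG (F : ι → ℕ → ℂ) (a : ℕ → ℂ) (hF : ∀ i n, ‖F i n‖ ≤ 1) (ha : ∀ n, ‖a n‖ ≤ 1)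
    (H n : ℕ) (i : ι) : ‖∑ h ∈ Icc 1 H, F i (n + h) * a (n + h)‖ ≤ GG F a H n :=
  le_ciSup (GG_bdd F a hF ha H n) i

lemma icc_ioc {M : Type*} [AddCommMonoid M] (f : ℕ → M) (n H : ℕ) :
    ∑ h ∈ Icc 1 H, f (n + h) = ∑ m ∈ Ioc n (n + H), f m := by
  have e1 : Icc 1 H = Ico 1 (H + 1) := by ext; simp only [mem_Icc, mem_Ico]; omega
  have e2 : Ioc n (n + H) = Ico (1 + n) (H + 1 + n) := by
    ext; simp only [mem_Ioc, mem_Ico]; omega
  rw [e1, e2, ← sum_Ico_add' f 1 (H + 1) n]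
  apply sum_congr rfl; intro x _; rw [add_comm]

lemma dilate {M : Type*} [AddCommMonoid M] (f : ℕ → M) (p : ℕ) (hp : 0 < p) (n H : ℕ) :
    ∑ m ∈ Ioc n (n + H), (if p ∣ m then f m else 0)
      = ∑ m ∈ Ioc (n / p) ((n + H) / p), f (p * m) := by
  rw [← sum_filter]
  have e : filter (fun m => p ∣ m) (Ioc n (n + H))
      = (Ioc (n / p) ((n + H) / p)).image (fun m => p * m) := by
    ext x
    simp only [mem_filter, mem_Ioc, mem_image]
    constructor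
    · rintro ⟨⟨h1, h2⟩, m, rfl⟩
      refine ⟨m, ⟨?_, ?_⟩, rfl⟩
      · rw [Nat.div_lt_iff_lt_mul hp, mul_comm]; exact h1
      · rw [Nat.le_div_iff_mul_le hp, mul_comm]; exact h2
    · rintro ⟨m, ⟨h1, h2⟩, rfl⟩
      rw [Nat.div_lt_iff_lt_mul hp, mul_comm] at h1
      rw [Nat.le_div_iff_mul_le hp, mul_comm] at h2
      exact ⟨⟨h1, h2⟩, dvd_mul_right _ _⟩
  rw [e, sum_image]
  intro x _ y _ h
  exact Nat.eq_of_mul_eq_mul_left hp h

lemma pointwise (P : Finset ℕ) (hP : ∀ p ∈ P, p.Prime) (F a : ℕ → ℂ)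
    (hF : ∀ n, ‖F n‖ ≤ 1) (ha : ∀ n, ‖a n‖ ≤ 1)
    (hmul : ∀ p ∈ P, ∀ m, ¬ p ∣ m → a (p * m) = a p * a m) (H n : ℕ) :
    WW P * ‖∑ h ∈ Icc 1 H, F (n + h) * a (n + h)‖
      ≤ ∑ m ∈ Ioc n (n + H), |om P m - WW P|
        + ∑ p ∈ P, (‖∑ m ∈ Ioc (n / p) ((n + H) / p), F (p * m) * a m‖
          + ∑ m ∈ Ioc (n / p) ((n + H) / p), if p ∣ m then (2 : ℝ) else 0) := by
  rw [icc_ioc (fun m => F m * a m)]
  have h1 : (WW P : ℂ) * ∑ m ∈ Ioc n (n + H), F m * a m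
      = ∑ m ∈ Ioc n (n + H), ((WW P : ℂ) - om P m) * (F m * a m)
        + ∑ p ∈ P, ∑ m ∈ Ioc (n / p) ((n + H) / p), F (p * m) * a (p * m) := by
    have e : ∀ p ∈ P, ∑ m ∈ Ioc (n / p) ((n + H) / p), F (p * m) * a (p * m)
        = ∑ m ∈ Ioc n (n + H), (if p ∣ m then F m * a m else 0) := by
      intro p hp
      rw [dilate (fun m => F m * a m) p (hP p hp).pos]
    rw [sum_congr rfl e, sum_comm (s := P), ← sum_add_distrib, mul_sum]
    apply sum_congr rfl; intro m _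
    have : ∑ p ∈ P, (if p ∣ m then F m * a m else 0) = (om P m : ℂ) * (F m * a m) := by
      rw [om]; push_cast
      rw [sum_mul]; apply sum_congr rfl; intro p _
      split_ifs <;> simp
    rw [this]; ring
  have h2 : ‖∑ m ∈ Ioc n (n + H), ((WW P : ℂ) - om P m) * (F m * a m)‖
      ≤ ∑ m ∈ Ioc n (n + H), |om P m - WW P| := by
    refine (norm_sum_le _ _).trans (sum_le_sum ?_)
    intro m _
    rw [norm_mul, norm_mul]
    have e1 : ‖(WW P : ℂ) - om P m‖ = |om P m - WW P| := by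
      rw [← Complex.ofReal_sub, Complex.norm_real, Real.norm_eq_abs, abs_sub_comm]
    rw [e1]
    exact mul_le_of_le_one_right (abs_nonneg _)
      (mul_le_one₀ (hF _) (norm_nonneg _) (ha _))
  have h3 : ∀ p ∈ P, ‖∑ m ∈ Ioc (n / p) ((n + H) / p), F (p * m) * a (p * m)‖
      ≤ ‖∑ m ∈ Ioc (n / p) ((n + H) / p), F (p * m) * a m‖
          + ∑ m ∈ Ioc (n / p) ((n + H) / p), (if p ∣ m then (2 : ℝ) else 0) := by
    intro p hp
    have e : ∑ m ∈ Ioc (n / p) ((n + H) / p), F (p * m) * a (p * m)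
        = a p * ∑ m ∈ Ioc (n / p) ((n + H) / p), F (p * m) * a m
          + ∑ m ∈ Ioc (n / p) ((n + H) / p), F (p * m) * (a (p * m) - a p * a m) := by
      rw [mul_sum, ← sum_add_distrib]
      apply sum_congr rfl; intro m _; ring
    rw [e]
    refine (norm_add_le _ _).trans (add_le_add ?_ ?_)
    · rw [norm_mul]; exact mul_le_of_le_one_left (norm_nonneg _) (ha _)
    · refine (norm_sum_le _ _).trans (sum_le_sum ?_)
      intro m _
      rw [norm_mul]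
      refine (mul_le_of_le_one_left (norm_nonneg _) (hF _)).trans ?_
      by_cases hpm : p ∣ m
      · rw [if_pos hpm]
        calc ‖a (p * m) - a p * a m‖ ≤ ‖a (p * m)‖ + ‖a p * a m‖ := norm_sub_le _ _
          _ ≤ 1 + 1 := by
              apply add_le_add (ha _)
              rw [norm_mul]; exact mul_le_one₀ (ha _) (norm_nonneg _) (ha _)
          _ = 2 := by norm_num
      · rw [if_neg hpm, hmul p hp m hpm]; simp
  have hW : ‖(WW P : ℂ)‖ = WW P := by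
    rw [Complex.norm_real, Real.norm_of_nonneg (WW_nonneg P)]
  calc WW P * ‖∑ m ∈ Ioc n (n + H), F m * a m‖
      = ‖(WW P : ℂ) * ∑ m ∈ Ioc n (n + H), F m * a m‖ := by rw [norm_mul, hW]
    _ ≤ ‖∑ m ∈ Ioc n (n + H), ((WW P : ℂ) - om P m) * (F m * a m)‖
        + ∑ p ∈ P, ‖∑ m ∈ Ioc (n / p) ((n + H) / p), F (p * m) * a (p * m)‖ := by
        rw [h1]
        exact (norm_add_le _ _).trans (add_le_add le_rfl (norm_sum_le _ _))
    _ ≤ _ := add_le_add h2 (sum_le_sum h3)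

/-- window suprema of the dilated family -/
noncomputable def BB (F : ι → ℕ → ℂ) (a : ℕ → ℂ) (L p j : ℕ) : ℝ :=
  ⨆ i, ‖∑ l ∈ Icc 1 L, F i (p * (j + l)) * a (j + l)‖

lemma BB_nonneg (F : ι → ℕ → ℂ) (a : ℕ → ℂ) (L p j : ℕ) : 0 ≤ BB F a L p j :=
  Real.iSup_nonneg (fun _ => norm_nonneg _)

lemma le_BB (F : ι → ℕ → ℂ) (a : ℕ → ℂ) (hF : ∀ i n, ‖F i n‖ ≤ 1) (ha : ∀ n, ‖a n‖ ≤ 1)
    (L p j : ℕ) (i : ι) : ‖∑ l ∈ Icc 1 L, F i (p * (j + l)) * a (j + l)‖ ≤ BB F a L p j := by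
  refine le_ciSup (f := fun i => ‖∑ l ∈ Icc 1 L, F i (p * (j + l)) * a (j + l)‖) ⟨L, ?_⟩ i
  rintro _ ⟨i, rfl⟩
  exact norm_window_le (fun n => F i (p * n)) a (fun n => hF _ _) ha L j

lemma sup_ineq (P : Finset ℕ) (hP : ∀ p ∈ P, p.Prime) (F : ι → ℕ → ℂ) (a : ℕ → ℂ)
    (hF : ∀ i n, ‖F i n‖ ≤ 1) (ha : ∀ n, ‖a n‖ ≤ 1)
    (hmul : ∀ p ∈ P, ∀ m, ¬ p ∣ m → a (p * m) = a p * a m) (L : ℕ) (hL : 0 < L) (H n : ℕ) :
    WW P * GG F a H n
      ≤ ∑ m ∈ Ioc n (n + H), |om P m - WW P|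
        + ∑ p ∈ P, (((1 / (L : ℝ)) * ∑ m ∈ Ioc (n / p) ((n + H) / p), BB F a L p (m - 1) + 2 * L)
          + ∑ m ∈ Ioc (n / p) ((n + H) / p), if p ∣ m then (2 : ℝ) else 0) := by
  rw [GG, Real.mul_iSup_of_nonneg (WW_nonneg P)]
  apply Real.iSup_le
  · intro i
    refine (pointwise P hP (F i) a (hF i) ha hmul H n).trans ?_
    apply add_le_add le_rfl
    apply sum_le_sum; intro p _
    apply add_le_add _ le_rfl
    have hle : n / p ≤ (n + H) / p := Nat.div_le_div_right (by omega)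
    refine (smooth (fun m => F i (p * m) * a m) ?_ _ _ L hle hL).trans ?_
    · intro m; rw [norm_mul]; exact mul_le_one₀ (hF _ _) (norm_nonneg _) (ha _)
    · apply add_le_add _ le_rfl
      apply mul_le_mul_of_nonneg_left _ (by positivity)
      have e : ∑ m ∈ Ioc (n / p) ((n + H) / p), BB F a L p (m - 1)
          = ∑ j ∈ Ico (n / p) ((n + H) / p), BB F a L p j := by
        have e1 : Ioc (n / p) ((n + H) / p) = Ico (n / p + 1) ((n + H) / p + 1) := by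
          ext; simp only [mem_Ioc, mem_Ico]; omega
        rw [e1, ← sum_Ico_add' (fun m => BB F a L p (m - 1))]
        simp
      rw [e]
      apply sum_le_sum; intro j _
      exact le_BB F a hF ha L p j i
  · apply add_nonneg (sum_nonneg (fun _ _ => abs_nonneg _))
    apply sum_nonneg; intro p _
    apply add_nonneg
    · apply add_nonneg _ (by positivity)
      apply mul_nonneg (by positivity)
      exact sum_nonneg (fun _ _ => BB_nonneg _ _ _ _ _)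
    · apply sum_nonneg; intro m _; split_ifs <;> norm_num

lemma sum_BB (P : Finset ℕ) (hP : ∀ p ∈ P, p.Prime) (F : ι → ℕ → ℂ) (a : ℕ → ℂ)
    (hF : ∀ i n, ‖F i n‖ ≤ 1) (ha : ∀ n, ‖a n‖ ≤ 1) (L : ℕ) (η : ℝ) (hη : 0 ≤ η)
    (horth : ∀ p ∈ P, ∀ q ∈ P, p ≠ q → ∀ i i' j,
      ‖∑ l ∈ Icc 1 L, F i (p * (j + l)) * (starRingEnd ℂ) (F i' (q * (j + l)))‖ ≤ η * L) (Y : ℕ) :
    ∑ p ∈ P, ∑ m ∈ Icc 1 (Y / p), BB F a L p (m - 1)
      ≤ L * (2 * Y + √η * (P.card : ℝ) * Y) := by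
  have e1 : ∀ p ∈ P, ∑ m ∈ Icc 1 (Y / p), BB F a L p (m - 1)
      = ∑ m ∈ Icc 1 Y, if m * p ≤ Y then BB F a L p (m - 1) else 0 := by
    intro p hp
    rw [← sum_filter]
    apply sum_congr _ (fun _ _ => rfl)
    ext m
    simp only [mem_Icc, mem_filter]
    rw [Nat.le_div_iff_mul_le (hP p hp).pos]
    constructor
    · rintro ⟨h1, h2⟩
      exact ⟨⟨h1, (Nat.le_mul_of_pos_right m (hP p hp).pos).trans h2⟩, h2⟩
    · rintro ⟨⟨h1, _⟩, h2⟩; exact ⟨h1, h2⟩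
  rw [sum_congr rfl e1, sum_comm]
  have e2 : ∀ m ∈ Icc 1 Y, ∑ p ∈ P, (if m * p ≤ Y then BB F a L p (m - 1) else 0)
      ≤ L * (√Y * (1 / √m) + √η * (P.card : ℝ)) := by
    intro m hm
    rw [mem_Icc] at hm
    rw [← sum_filter]
    set Q := P.filter (fun p => m * p ≤ Y) with hQ
    have hQP : Q ⊆ P := filter_subset _ _
    have h1 : ∑ p ∈ Q, BB F a L p (m - 1) ≤ L * √((Q.card : ℝ) + η * (Q.card : ℝ) ^ 2) := by
      apply duality_iSup Q L η hη (fun l => a (m - 1 + l)) (fun _ => ha _)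
        (fun i p l => F i (p * (m - 1 + l))) (fun _ _ _ => hF _ _)
      intro p hp q hq hpq i i'
      exact horth p (hQP hp) q (hQP hq) hpq i i' (m - 1)
    have h2 : (Q.card : ℝ) ≤ (Y : ℝ) / m := by
      have : Q.card ≤ Y / m := by
        calc Q.card ≤ (Icc 1 (Y / m)).card := by
              apply card_le_card
              intro p hp
              rw [hQ, mem_filter] at hp
              rw [mem_Icc, Nat.le_div_iff_mul_le hm.1, mul_comm]
              exact ⟨(hP p hp.1).pos, hp.2⟩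
          _ = Y / m := by simp
      calc (Q.card : ℝ) ≤ ((Y / m : ℕ) : ℝ) := by exact_mod_cast this
        _ ≤ _ := Nat.cast_div_le
    have h3 : (Q.card : ℝ) ≤ P.card := by exact_mod_cast card_le_card hQP
    refine h1.trans (mul_le_mul_of_nonneg_left ?_ (by positivity))
    have hs : √((Q.card : ℝ) + η * (Q.card : ℝ) ^ 2) ≤ √(Q.card : ℝ) + √(η * (Q.card : ℝ) ^ 2) := by
      rw [Real.sqrt_le_left (by positivity)]
      have a1 := Real.sq_sqrt (show (0:ℝ) ≤ (Q.card : ℝ) by positivity)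
      have a2 := Real.sq_sqrt (show (0:ℝ) ≤ η * (Q.card : ℝ) ^ 2 by positivity)
      have a3 : 0 ≤ √(Q.card : ℝ) * √(η * (Q.card : ℝ) ^ 2) := by positivity
      nlinarith
    refine hs.trans (add_le_add ?_ ?_)
    · calc √(Q.card : ℝ) ≤ √((Y : ℝ) / m) := Real.sqrt_le_sqrt h2
        _ = √Y * (1 / √m) := by rw [Real.sqrt_div (by positivity)]; ring
    · rw [Real.sqrt_mul hη, Real.sqrt_sq (by positivity)]
      gcongr
  calc _ ≤ ∑ m ∈ Icc 1 Y, (L : ℝ) * (√Y * (1 / √m) + √η * (P.card : ℝ)) := sum_le_sum e2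
    _ = L * (√Y * ∑ m ∈ Icc 1 Y, (1 / √(m : ℝ)) + √η * (P.card : ℝ) * Y) := by
        rw [← mul_sum, sum_add_distrib, ← mul_sum, sum_const, nsmul_eq_mul, Nat.card_Icc,
          Nat.add_sub_cancel]
        ring
    _ ≤ L * (√Y * (2 * √Y) + √η * (P.card : ℝ) * Y) := by
        gcongr; exact sum_inv_sqrt Y
    _ = _ := by
        have : √(Y : ℝ) * (2 * √(Y : ℝ)) = 2 * Y := by
          rw [mul_left_comm, Real.mul_self_sqrt (by positivity)]
        rw [this]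

/-- The main estimate for natural averages. -/
lemma main_estimate (P : Finset ℕ) (hP : ∀ p ∈ P, p.Prime) (F : ι → ℕ → ℂ) (a : ℕ → ℂ)
    (hF : ∀ i n, ‖F i n‖ ≤ 1) (ha : ∀ n, ‖a n‖ ≤ 1)
    (hmul : ∀ p ∈ P, ∀ m, ¬ p ∣ m → a (p * m) = a p * a m)
    (L : ℕ) (hL : 0 < L) (η : ℝ) (hη : 0 ≤ η)
    (horth : ∀ p ∈ P, ∀ q ∈ P, p ≠ q → ∀ i i' j,
      ‖∑ l ∈ Icc 1 L, F i (p * (j + l)) * (starRingEnd ℂ) (F i' (q * (j + l)))‖ ≤ η * L)
    (H X : ℕ) (hX : 2 * P.card ≤ X + H) :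
    WW P * ∑ n ∈ range X, GG F a H n
      ≤ H * ((X + H : ℕ) : ℝ) * (√(2 * WW P) + 4 + √η * (P.card : ℝ)) + 2 * L * (P.card : ℝ) * X := by
  set Y := X + H with hY
  have h1 : ∑ n ∈ range X, ∑ m ∈ Ioc n (n + H), |om P m - WW P|
      ≤ H * (√(2 * WW P) * Y) := by
    have := sum_windows_le 1 one_pos H X (fun m => |om P m - WW P|) (fun _ => abs_nonneg _)
    simp only [Nat.div_one] at this
    refine this.trans ?_
    exact mul_le_mul_of_nonneg_left (turan_kubilius_one P hP Y hX) (by positivity)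
  have h2 : ∀ p ∈ P, ∑ n ∈ range X, ∑ m ∈ Ioc (n / p) ((n + H) / p), BB F a L p (m - 1)
      ≤ H * ∑ m ∈ Icc 1 (Y / p), BB F a L p (m - 1) := fun p hp =>
    sum_windows_le p (hP p hp).pos H X _ (fun _ => BB_nonneg _ _ _ _ _)
  have h3 : ∀ p ∈ P, ∑ n ∈ range X, ∑ m ∈ Ioc (n / p) ((n + H) / p), (if p ∣ m then (2 : ℝ) else 0)
      ≤ H * (2 * (Y * (1 / (p : ℝ) ^ 2))) := by
    intro p hp
    refine (sum_windows_le p (hP p hp).pos H X _ (fun m => by split_ifs <;> norm_num)).trans ?_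
    apply mul_le_mul_of_nonneg_left _ (by positivity)
    have : ∀ m, (if p ∣ m then (2 : ℝ) else 0) = 2 * (if p ∣ m then (1 : ℝ) else 0) := by
      intro m; split_ifs <;> norm_num
    simp only [this, ← mul_sum]
    rw [← hY, sum_dvd]
    apply mul_le_mul_of_nonneg_left _ (by norm_num)
    have hpr : (0 : ℝ) < p := by exact_mod_cast (hP p hp).pos
    calc ((Y / p / p : ℕ) : ℝ) ≤ ((Y / p : ℕ) : ℝ) / p := Nat.cast_div_le
      _ ≤ ((Y : ℝ) / p) / p := by gcongr; exact Nat.cast_div_le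
      _ = _ := by field_simp
  have hB := sum_BB P hP F a hF ha L η hη horth Y
  have hS := sum_inv_sq_primes P hP
  have hLr : (0 : ℝ) < L := by exact_mod_cast hL
  calc WW P * ∑ n ∈ range X, GG F a H n = ∑ n ∈ range X, WW P * GG F a H n := by rw [mul_sum]
    _ ≤ ∑ n ∈ range X, (∑ m ∈ Ioc n (n + H), |om P m - WW P|
        + ∑ p ∈ P, (((1 / (L : ℝ)) * ∑ m ∈ Ioc (n / p) ((n + H) / p), BB F a L p (m - 1) + 2 * L)
          + ∑ m ∈ Ioc (n / p) ((n + H) / p), if p ∣ m then (2 : ℝ) else 0)) := by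
        apply sum_le_sum; intro n _
        exact sup_ineq P hP F a hF ha hmul L hL H n
    _ = ∑ n ∈ range X, ∑ m ∈ Ioc n (n + H), |om P m - WW P|
        + ∑ p ∈ P, ((1 / (L : ℝ)) * (∑ n ∈ range X, ∑ m ∈ Ioc (n / p) ((n + H) / p),
            BB F a L p (m - 1)) + 2 * L * X
          + ∑ n ∈ range X, ∑ m ∈ Ioc (n / p) ((n + H) / p), if p ∣ m then (2 : ℝ) else 0) := by
        rw [sum_add_distrib]
        congr 1
        rw [sum_comm]
        apply sum_congr rfl; intro p _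
        rw [sum_add_distrib, sum_add_distrib, ← mul_sum]
        simp; ring
    _ ≤ H * (√(2 * WW P) * Y)
        + ∑ p ∈ P, ((1 / (L : ℝ)) * (H * ∑ m ∈ Icc 1 (Y / p), BB F a L p (m - 1)) + 2 * L * X
          + H * (2 * (Y * (1 / (p : ℝ) ^ 2)))) := by
        apply add_le_add h1
        apply sum_le_sum; intro p hp
        apply add_le_add _ (h3 p hp)
        apply add_le_add _ le_rfl
        exact mul_le_mul_of_nonneg_left (h2 p hp) (by positivity)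
    _ = H * (√(2 * WW P) * Y)
        + ((1 / (L : ℝ)) * (H * ∑ p ∈ P, ∑ m ∈ Icc 1 (Y / p), BB F a L p (m - 1))
          + 2 * L * X * (P.card : ℝ)
          + H * (2 * (Y * ∑ p ∈ P, (1 / (p : ℝ) ^ 2)))) := by
        rw [sum_add_distrib, sum_add_distrib]
        simp only [← mul_sum]
        simp; ring
    _ ≤ H * (√(2 * WW P) * Y)
        + ((1 / (L : ℝ)) * (H * (L * (2 * Y + √η * (P.card : ℝ) * Y)))
          + 2 * L * X * (P.card : ℝ)
          + H * (2 * (Y * 1))) := by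
        gcongr
    _ = _ := by
        field_simp
        ring

end Pool.Agent.Lib.MP_663568_nt.Katai
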