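import Mathlib
import Pool.Agent.Lib.MP_663568_nt.Main

set_option autoImplicit false
open Finset

namespace Pool.Agent.Lib.MP_663568_nt.Katai

variable {ι : Type*}

lemma exists_finset_WW (PP : Set ℕ) (hdiv : ¬ Summable (PP.indicator (fun p : ℕ => (1 : ℝ) / p)))
    (K : ℝ) : ∃ P : Finset ℕ, (↑P ⊆ PP) ∧ K ≤ WW P := by
  classical
  have hnn : ∀ n, 0 ≤ PP.indicator (fun p : ℕ => (1 : ℝ) / p) n := by
    intro n; exact Set.indicator_nonneg (fun _ _ => by positivity) n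
  have ht := (not_summable_iff_tendsto_nat_atTop_of_nonneg hnn).mp hdiv
  obtain ⟨N, hN⟩ := (ht.eventually_ge_atTop K).exists
  refine ⟨(range N).filter (fun p => p ∈ PP), ?_, ?_⟩
  · intro p hp; simp at hp; exact hp.2
  · rw [WW, sum_filter]
    refine hN.trans (le_of_eq ?_)
    apply sum_congr rfl; intro p _
    simp [Set.indicator]

/-- Natural averages, uniformly in `H ≤ X`; only finitely many primes and one window length
matter. -/
theorem natural' (PP : Set ℕ) (hPP : ∀ p ∈ PP, p.Prime)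
    (hdiv : ¬ Summable (PP.indicator (fun p : ℕ => (1 : ℝ) / p)))
    (a : ℕ → ℂ) (ha : ∀ n, ‖a n‖ ≤ 1)
    (hmul : ∀ p ∈ PP, ∀ m, ¬ p ∣ m → a (p * m) = a p * a m)
    (ε : ℝ) (hε : 0 < ε) :
    ∃ P : Finset ℕ, ↑P ⊆ PP ∧ ∃ η : ℝ, 0 < η ∧ ∀ L : ℕ, 0 < L → ∀ (ι : Type) (F : ι → ℕ → ℂ),
      (∀ i n, ‖F i n‖ ≤ 1) →
      (∀ p ∈ P, ∀ q ∈ P, p ≠ q → ∀ i i' j,
        ‖∑ l ∈ Icc 1 L, F i (p * (j + l)) * (starRingEnd ℂ) (F i' (q * (j + l)))‖ ≤ η * L) →
      ∃ H₀ : ℕ, 0 < H₀ ∧ ∀ H X : ℕ, H₀ ≤ H → H ≤ X →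
        ∑ n ∈ range X, GG F a H n ≤ ε * H * X := by
  obtain ⟨P, hPsub, hW⟩ := exists_finset_WW PP hdiv (128 / ε ^ 2 + 40 / ε + 1)
  have hP : ∀ p ∈ P, p.Prime := fun p hp => hPP p (hPsub hp)
  set K : ℝ := (P.card : ℝ) with hK
  have hK0 : 0 ≤ K := by positivity
  set η : ℝ := 1 / (K + 1) ^ 2 with hη
  have hη0 : 0 < η := by positivity
  have hηK : √η * K ≤ 1 := by
    rw [hη, Real.sqrt_div zero_le_one, Real.sqrt_one, Real.sqrt_sq (by positivity),
      div_mul_eq_mul_div, one_mul, div_le_one (by positivity)]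
    linarith
  refine ⟨P, hPsub, η, hη0, ?_⟩
  intro L hL0 ι F hF hL
  refine ⟨⌈4 * (L : ℝ) * K / ε⌉₊ + P.card + 1, by omega, ?_⟩
  intro H X hH hHX
  have hmain := main_estimate P hP F a hF ha (fun p hp m hm => hmul p (hPsub hp) m hm) L hL0 η
    hη0.le hL H X (by omega)
  set W := WW P with hWdef
  have hW1 : 1 ≤ W := by
    have : (0 : ℝ) < 128 / ε ^ 2 + 40 / ε := by positivity
    linarith
  have hWa : 128 / ε ^ 2 ≤ W := by
    have : (0 : ℝ) < 40 / ε := by positivity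
    linarith
  have hWb : 40 / ε ≤ W := by
    have : (0 : ℝ) < 128 / ε ^ 2 := by positivity
    linarith
  have hs : √(2 * W) ≤ ε / 8 * W := by
    rw [Real.sqrt_le_left (by positivity)]
    rw [div_le_iff₀ (by positivity)] at hWa
    have : 2 * W ≤ 2 * W * (W * ε ^ 2 / 128) := by
      have h1 : 1 ≤ W * ε ^ 2 / 128 := by linarith
      nlinarith
    nlinarith
  have h5 : 5 ≤ ε / 8 * W := by
    rw [div_le_iff₀ hε] at hWb; linarith
  have hHr : 4 * (L : ℝ) * K / ε ≤ H := by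
    have h1 := Nat.le_ceil (4 * (L : ℝ) * K / ε)
    have h2 : ((⌈4 * (L : ℝ) * K / ε⌉₊ : ℕ) : ℝ) ≤ H := Nat.cast_le.mpr (by omega)
    linarith
  have hHX' : ((X + H : ℕ) : ℝ) ≤ 2 * X := by
    have : (H : ℝ) ≤ X := by exact_mod_cast hHX
    push_cast; linarith
  have hX0 : (0 : ℝ) ≤ X := by positivity
  have hH0 : (0 : ℝ) ≤ H := by positivity
  have h6 : 2 * L * K * X ≤ ε / 2 * W * H * X := by
    rw [div_le_iff₀ hε] at hHr
    have : 2 * L * K ≤ ε / 2 * W * H := by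
      have h1 : 2 * (L : ℝ) * K ≤ ε / 2 * H := by linarith
      have h2 : ε / 2 * H ≤ ε / 2 * H * W := le_mul_of_one_le_right (by positivity) hW1
      linarith
    exact mul_le_mul_of_nonneg_right this hX0
  have h7 : H * ((X + H : ℕ) : ℝ) * (√(2 * W) + 4 + √η * K) ≤ H * (2 * X) * (ε / 8 * W + ε / 8 * W) := by
    have h8 : √(2 * W) + 4 + √η * K ≤ ε / 8 * W + ε / 8 * W := by linarith
    gcongr
  have h9 : W * ∑ n ∈ range X, GG F a H n ≤ W * (ε * H * X) := by
    calc _ ≤ _ := hmain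
      _ ≤ H * (2 * X) * (ε / 8 * W + ε / 8 * W) + ε / 2 * W * H * X := add_le_add h7 h6
      _ = _ := by ring
  exact le_of_mul_le_mul_left h9 (by linarith)

/-! ### Subadditivity and the passage to logarithmic averages -/

lemma GG_sub (F : ι → ℕ → ℂ) (a : ℕ → ℂ) (hF : ∀ i n, ‖F i n‖ ≤ 1) (ha : ∀ n, ‖a n‖ ≤ 1)
    (H L n : ℕ) (hL : 0 < L) :
    GG F a H n ≤ ∑ i ∈ range (H / L), GG F a L (n + i * L) + L := by
  apply Real.iSup_le
  · intro i
    have hblock : ∀ M : ℕ, ∑ h ∈ Icc 1 (M * L), F i (n + h) * a (n + h)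
        = ∑ k ∈ range M, ∑ h ∈ Icc 1 L, F i (n + k * L + h) * a (n + k * L + h) := by
      intro M
      rw [icc_ioc (fun m => F i m * a m)]
      induction M with
      | zero => simp
      | succ M ih =>
        rw [sum_range_succ, ← ih, icc_ioc (fun m => F i m * a m)]
        have e1 : Ioc n (n + (M + 1) * L) = Ioc n (n + M * L) ∪ Ioc (n + M * L) (n + M * L + L) := by
          ext x; simp only [mem_Ioc, mem_union]
          have : (M + 1) * L = M * L + L := by ring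
          omega
        rw [e1, sum_union]
        rw [disjoint_left]; intro x; simp only [mem_Ioc]; omega
    have hsplit : ∑ h ∈ Icc 1 H, F i (n + h) * a (n + h)
        = ∑ h ∈ Icc 1 ((H / L) * L), F i (n + h) * a (n + h)
          + ∑ h ∈ Ioc ((H / L) * L) H, F i (n + h) * a (n + h) := by
      have hle := Nat.div_mul_le_self H L
      have e1 : Icc 1 H = Icc 1 ((H / L) * L) ∪ Ioc ((H / L) * L) H := by
        ext x; simp only [mem_Ioc, mem_union, mem_Icc]; omega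
      rw [e1, sum_union]
      rw [disjoint_left]; intro x; simp only [mem_Ioc, mem_Icc]; omega
    rw [hsplit, hblock]
    refine (norm_add_le _ _).trans (add_le_add ?_ ?_)
    · refine (norm_sum_le _ _).trans (sum_le_sum ?_)
      intro k _
      exact le_GG F a hF ha L (n + k * L) i
    · calc _ ≤ ∑ h ∈ Ioc ((H / L) * L) H, ‖F i (n + h) * a (n + h)‖ := norm_sum_le _ _
        _ ≤ ∑ h ∈ Ioc ((H / L) * L) H, (1 : ℝ) := by
            apply sum_le_sum; intro h _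
            rw [norm_mul]; exact mul_le_one₀ (hF _ _) (norm_nonneg _) (ha _)
        _ = ((H - (H / L) * L : ℕ) : ℝ) := by simp
        _ ≤ L := by
            norm_cast
            have := Nat.lt_div_mul_add hL (a := H)
            omega
  · apply add_nonneg (sum_nonneg (fun _ _ => GG_nonneg _ _ _ _)) (by positivity)

/-- double counting of shifted windows -/
lemma double_count (f : ℕ → ℝ) (hf : ∀ n, 0 ≤ f n) (X M L : ℕ) (hL : 0 < L) (c : ℕ)
    (hc : M ≤ c ∨ X / L + 1 ≤ c) :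
    ∑ n ∈ range X, ∑ i ∈ range M, f (n + i * L) ≤ c * ∑ n ∈ range (X + M * L), f n := by
  have e1 : ∀ i ∈ range M, ∑ n ∈ range X, f (n + i * L)
      = ∑ m ∈ range (X + M * L), if (i * L ≤ m ∧ m < X + i * L) then f m else 0 := by
    intro i hi
    rw [mem_range] at hi
    rw [range_eq_Ico, sum_Ico_add' f 0 X (i * L), ← sum_filter]
    apply sum_congr _ (fun _ _ => rfl)
    ext m
    have : i * L ≤ M * L := Nat.mul_le_mul_right L hi.le
    simp only [mem_Ico, mem_filter, mem_range]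
    omega
  rw [sum_comm, sum_congr rfl e1, sum_comm, mul_sum]
  apply sum_le_sum; intro m _
  rw [← sum_filter, sum_const, nsmul_eq_mul]
  apply mul_le_mul_of_nonneg_right _ (hf m)
  norm_cast
  rcases hc with hc | hc
  · exact (card_filter_le _ _).trans (by simpa using hc)
  · refine le_trans ?_ hc
    calc #{i ∈ range M | i * L ≤ m ∧ m < X + i * L} ≤ #(Icc (m / L - X / L) (m / L)) := by
          apply card_le_card
          intro i
          simp only [mem_filter, mem_range, mem_Icc]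
          rintro ⟨_, h1, h2⟩
          have h3 : i ≤ m / L := (Nat.le_div_iff_mul_le hL).mpr h1
          refine ⟨?_, h3⟩
          have h4 : m / L * L ≤ m := Nat.div_mul_le_self m L
          have h5 : (m / L - i) * L < X := by
            rw [Nat.sub_mul]; omega
          have h6 : m / L - i ≤ X / L := (Nat.le_div_iff_mul_le hL).mpr h5.le
          omega
      _ ≤ X / L + 1 := by
          rw [Nat.card_Icc]
          generalize m / L = u
          generalize X / L = v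
          omega

lemma abel (g : ℕ → ℝ) (N : ℕ) (hN : 1 ≤ N) :
    ∑ n ∈ Icc 1 N, (1 / (n : ℝ)) * g n
      = (∑ n ∈ Icc 1 N, g n) / N
        + ∑ n ∈ Ico 1 N, (∑ m ∈ Icc 1 n, g m) / ((n : ℝ) * (n + 1)) := by
  induction N, hN using Nat.le_induction with
  | base => simp
  | succ N hN ih =>
    rw [sum_Icc_succ_top (by omega), ih, sum_Icc_succ_top (by omega), sum_Ico_succ_top hN]
    have hN' : (0 : ℝ) < N := by exact_mod_cast hN
    push_cast
    field_simp
    ring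

lemma sum_inv_le_log (N : ℕ) : ∑ n ∈ Icc 1 N, (1 / (n : ℝ)) ≤ 1 + Real.log N := by
  have h := harmonic_le_one_add_log N
  have : ((harmonic N : ℚ) : ℝ) = ∑ n ∈ Icc 1 N, (1 / (n : ℝ)) := by
    rw [harmonic_eq_sum_Icc]; push_cast; simp
  rwa [this] at h

/-- From one scale (natural averages) to all scales (logarithmic averages, uniformly). -/
lemma log_of_natural (g : ℕ → ℕ → ℝ) (h0 : ∀ H n, 0 ≤ g H n) (h1 : ∀ H n, g H n ≤ H)
    (hsub : ∀ H L n, 0 < L → g H n ≤ ∑ i ∈ range (H / L), g L (n + i * L) + L)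
    (ε : ℝ) (hε : 0 < ε) (L : ℕ) (hL : 0 < L) (X₀ : ℕ)
    (hs : ∀ X, X₀ ≤ X → ∑ n ∈ range X, g L n ≤ ε * L * X) :
    ∃ H₀ : ℕ, ∀ N H : ℕ, H₀ ≤ H → H ≤ N →
      ∑ n ∈ Icc 1 N, (1 / (n : ℝ)) * g H n ≤ 21 * ε * H * Real.log N := by
  set X₂ : ℕ := max X₀ L + 1 with hX₂
  -- partial sums
  have hS : ∀ H X : ℕ, X₂ ≤ X → ∑ n ∈ range X, g H n ≤ (4 * ε * H + L) * X := by
    intro H X hX
    have hLX : L ≤ X := by omega
    have hX0X : X₀ ≤ X := by omega
    have hLr : (0 : ℝ) < L := by exact_mod_cast hL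
    have hMH : (H / L) * L ≤ H := Nat.div_mul_le_self H L
    have e1 : ∑ n ∈ range X, g H n
        ≤ ∑ n ∈ range X, ∑ i ∈ range (H / L), g L (n + i * L) + L * X := by
      calc _ ≤ ∑ n ∈ range X, (∑ i ∈ range (H / L), g L (n + i * L) + L) :=
            sum_le_sum (fun n _ => hsub H L n hL)
        _ = _ := by rw [sum_add_distrib]; simp; ring
    have e2 : ∑ n ∈ range (X + (H / L) * L), g L n ≤ ε * L * (X + H) := by
      refine (hs _ (by omega)).trans ?_
      apply mul_le_mul_of_nonneg_left _ (by positivity)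
      exact_mod_cast (by omega : X + (H / L) * L ≤ X + H)
    have e3 : ∑ n ∈ range X, ∑ i ∈ range (H / L), g L (n + i * L) ≤ 4 * ε * H * X := by
      rcases le_total H X with hHX | hHX
      · refine (double_count (g L) (h0 L) X (H / L) L hL (H / L) (Or.inl le_rfl)).trans ?_
        have hHXr : (H : ℝ) ≤ X := by exact_mod_cast hHX
        calc _ ≤ ((H / L : ℕ) : ℝ) * (ε * L * (X + H)) := by gcongr
          _ ≤ ((H : ℝ) / L) * (ε * L * (X + H)) := by
              gcongr; exact Nat.cast_div_le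
          _ = ε * H * (X + H) := by field_simp
          _ ≤ ε * H * (X + X) := by gcongr
          _ ≤ 4 * ε * H * X := by
              have : 0 ≤ ε * H * X := by positivity
              linarith
      · refine (double_count (g L) (h0 L) X (H / L) L hL (X / L + 1) (Or.inr le_rfl)).trans ?_
        have hHXr : (X : ℝ) ≤ H := by exact_mod_cast hHX
        have hLXr : (L : ℝ) ≤ X := by exact_mod_cast hLX
        calc _ ≤ ((X / L + 1 : ℕ) : ℝ) * (ε * L * (X + H)) := by gcongr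
          _ ≤ (2 * (X : ℝ) / L) * (ε * L * (X + H)) := by
              apply mul_le_mul_of_nonneg_right _ (by positivity)
              push_cast
              have a1 : ((X / L : ℕ) : ℝ) ≤ (X : ℝ) / L := Nat.cast_div_le
              have a2 : 1 ≤ (X : ℝ) / L := by rw [le_div_iff₀ hLr]; linarith
              have a3 : 2 * (X : ℝ) / L = (X : ℝ) / L + (X : ℝ) / L := by ring
              linarith
          _ = 2 * ε * X * (X + H) := by field_simp
          _ ≤ 2 * ε * X * (H + H) := by gcongr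
          _ = 4 * ε * H * X := by ring
    calc _ ≤ _ := e1
      _ ≤ 4 * ε * H * X + L * X := by linarith
      _ = _ := by ring
  have hS' : ∀ H n : ℕ, X₂ ≤ n → ∑ m ∈ Icc 1 n, g H m ≤ (4 * ε * H + L) * (n + 1) := by
    intro H n hn
    calc ∑ m ∈ Icc 1 n, g H m ≤ ∑ m ∈ range (n + 1), g H m := by
          apply sum_le_sum_of_subset_of_nonneg
          · intro x; simp only [mem_Icc, mem_range]; omega
          · intro _ _ _; exact h0 _ _
      _ ≤ (4 * ε * H + L) * ((n + 1 : ℕ) : ℝ) := hS H (n + 1) (by omega)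
      _ = _ := by push_cast; ring
  have hT : ∀ H n : ℕ, ∑ m ∈ Icc 1 n, g H m ≤ n * H := by
    intro H n
    calc ∑ m ∈ Icc 1 n, g H m ≤ ∑ m ∈ Icc 1 n, (H : ℝ) := sum_le_sum (fun m _ => h1 H m)
      _ = n * H := by simp
  -- choice of H₀
  obtain ⟨H₁, hH₁⟩ : ∃ H₁ : ℕ, ∀ N : ℕ, H₁ ≤ N → (1 + Real.log X₂) / ε ≤ Real.log N ∧
      1 ≤ Real.log N := by
    have ht : Filter.Tendsto (fun N : ℕ => Real.log (N : ℝ)) Filter.atTop Filter.atTop :=
      Real.tendsto_log_atTop.comp tendsto_natCast_atTop_atTop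
    obtain ⟨H₁, h⟩ := Filter.eventually_atTop.mp
      ((ht.eventually_ge_atTop ((1 + Real.log X₂) / ε)).and (ht.eventually_ge_atTop 1))
    exact ⟨H₁, h⟩
  refine ⟨H₁ + X₂ + ⌈(L : ℝ) / ε⌉₊ + 1, ?_⟩
  intro N H hH hHN
  have hN1 : 1 ≤ N := by omega
  have hLε : (L : ℝ) ≤ ε * H := by
    have a1 := Nat.le_ceil ((L : ℝ) / ε)
    have a2 : ((⌈(L : ℝ) / ε⌉₊ : ℕ) : ℝ) ≤ H := Nat.cast_le.mpr (by omega)
    have a3 : (L : ℝ) / ε ≤ H := a1.trans a2
    rw [div_le_iff₀ hε] at a3; linarith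
  obtain ⟨hl1, hl2⟩ := hH₁ N (by omega)
  rw [div_le_iff₀ hε] at hl1
  set c : ℝ := 4 * ε * H + L with hc
  have hc5 : c ≤ 5 * ε * H := by rw [hc]; linarith
  have hc0 : 0 ≤ c := by positivity
  rw [abel (g H) N hN1]
  have hA : (∑ n ∈ Icc 1 N, g H n) / N ≤ 2 * c := by
    have hNr : (1 : ℝ) ≤ N := by exact_mod_cast hN1
    rw [div_le_iff₀ (by linarith)]
    refine (hS' H N (by omega)).trans ?_
    nlinarith
  have hB : ∑ n ∈ Ico 1 N, (∑ m ∈ Icc 1 n, g H m) / ((n : ℝ) * (n + 1))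
      ≤ H * (1 + Real.log X₂) + c * (1 + Real.log N) := by
    have hterm : ∀ n ∈ Ico 1 N, (∑ m ∈ Icc 1 n, g H m) / ((n : ℝ) * (n + 1))
        ≤ (if n < X₂ then (H : ℝ) * (1 / n) else 0) + c * (1 / n) := by
      intro n hn
      rw [mem_Ico] at hn
      have hnr : (1 : ℝ) ≤ n := by exact_mod_cast hn.1
      by_cases h : n < X₂
      · rw [if_pos h]
        have : (∑ m ∈ Icc 1 n, g H m) / ((n : ℝ) * (n + 1)) ≤ (H : ℝ) * (1 / n) := by
          rw [div_le_iff₀ (by positivity)]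
          refine (hT H n).trans ?_
          have : (H : ℝ) * (1 / n) * (n * (n + 1)) = H * (n + 1) := by field_simp
          rw [this]
          have hH0 : (0 : ℝ) ≤ H := by positivity
          nlinarith
        have h2 : 0 ≤ c * (1 / (n : ℝ)) := by positivity
        linarith
      · rw [if_neg h, zero_add, div_le_iff₀ (by positivity)]
        refine (hS' H n (by omega)).trans (le_of_eq ?_)
        rw [← hc]
        field_simp
    calc _ ≤ ∑ n ∈ Ico 1 N, ((if n < X₂ then (H : ℝ) * (1 / n) else 0) + c * (1 / n)) :=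
          sum_le_sum hterm
      _ ≤ ∑ n ∈ Icc 1 X₂, (H : ℝ) * (1 / n) + ∑ n ∈ Icc 1 N, c * (1 / (n : ℝ)) := by
          rw [sum_add_distrib]
          apply add_le_add
          · rw [← sum_filter]
            apply sum_le_sum_of_subset_of_nonneg
            · intro x; simp only [mem_filter, mem_Ico, mem_Icc]; omega
            · intro _ _ _; positivity
          · apply sum_le_sum_of_subset_of_nonneg
            · intro x; simp only [mem_Ico, mem_Icc]; omega
            · intro _ _ _; positivity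
      _ ≤ _ := by
          rw [← mul_sum, ← mul_sum]
          gcongr
          · exact sum_inv_le_log X₂
          · exact sum_inv_le_log N
  have hH0 : (0 : ℝ) ≤ H := by positivity
  have hfin1 : (H : ℝ) * (1 + Real.log X₂) ≤ H * (Real.log N * ε) := by gcongr
  have hfin2 : c * (1 + Real.log N) ≤ 5 * ε * H * (1 + Real.log N) := by
    apply mul_le_mul_of_nonneg_right hc5; linarith
  have hfin3 : 2 * c ≤ 10 * ε * H := by linarith
  have hfin4 : 0 ≤ ε * H := by positivity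
  have hfin5 : ε * H ≤ ε * H * Real.log N := le_mul_of_one_le_right hfin4 hl2
  nlinarith [hA, hB]

/-- **Uniform Kátai criterion with the supremum inside**, finitary form. -/
theorem logarithmic' (PP : Set ℕ) (hPP : ∀ p ∈ PP, p.Prime)
    (hdiv : ¬ Summable (PP.indicator (fun p : ℕ => (1 : ℝ) / p)))
    (a : ℕ → ℂ) (ha : ∀ n, ‖a n‖ ≤ 1)
    (hmul : ∀ p ∈ PP, ∀ m, ¬ p ∣ m → a (p * m) = a p * a m)
    (ε : ℝ) (hε : 0 < ε) :
    ∃ P : Finset ℕ, ↑P ⊆ PP ∧ ∃ η : ℝ, 0 < η ∧ ∀ L : ℕ, 0 < L → ∀ (ι : Type) (F : ι → ℕ → ℂ),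
      (∀ i n, ‖F i n‖ ≤ 1) →
      (∀ p ∈ P, ∀ q ∈ P, p ≠ q → ∀ i i' j,
        ‖∑ l ∈ Icc 1 L, F i (p * (j + l)) * (starRingEnd ℂ) (F i' (q * (j + l)))‖ ≤ η * L) →
      ∃ H₀ : ℕ, ∀ N H : ℕ, H₀ ≤ H → H ≤ N →
        ∑ n ∈ Icc 1 N, (1 / (n : ℝ)) * GG F a H n ≤ ε * H * Real.log N := by
  obtain ⟨P, hPsub, η, hη, hmain⟩ := natural' PP hPP hdiv a ha hmul (ε / 21) (by positivity)
  refine ⟨P, hPsub, η, hη, ?_⟩
  intro L hL0 ι F hF horth
  obtain ⟨L', hL'0, hL'⟩ := hmain L hL0 ι F hF horth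
  obtain ⟨H₀, h⟩ := log_of_natural (GG F a) (GG_nonneg F a) (GG_le F a hF ha)
    (fun H L n hL => GG_sub F a hF ha H L n hL) (ε / 21) (by positivity) L' hL'0 L'
    (fun X hX => hL' L' X le_rfl hX)
  refine ⟨H₀, fun N H h1 h2 => (h N H h1 h2).trans (le_of_eq ?_)⟩
  ring

/-- **Uniform Kátai criterion with the supremum inside** (shape of Q1). -/
theorem logarithmic (PP : Set ℕ) (hPP : ∀ p ∈ PP, p.Prime)
    (hdiv : ¬ Summable (PP.indicator (fun p : ℕ => (1 : ℝ) / p)))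
    (ι : Type) (F : ι → ℕ → ℂ) (a : ℕ → ℂ)
    (hF : ∀ i n, ‖F i n‖ ≤ 1) (ha : ∀ n, ‖a n‖ ≤ 1)
    (hmul : ∀ p ∈ PP, ∀ m, ¬ p ∣ m → a (p * m) = a p * a m)
    (horth : ∀ p ∈ PP, ∀ q ∈ PP, p ≠ q → ∀ ε : ℝ, 0 < ε → ∃ L₀ : ℕ, ∀ L : ℕ, L₀ ≤ L → ∀ i i' j,
      ‖∑ l ∈ Icc 1 L, F i (p * (j + l)) * (starRingEnd ℂ) (F i' (q * (j + l)))‖ ≤ ε * L)
    (ε : ℝ) (hε : 0 < ε) :
    ∃ H₀ : ℕ, ∀ N H : ℕ, H₀ ≤ H → H ≤ N →
      ∑ n ∈ Icc 1 N, (1 / (n : ℝ)) * GG F a H n ≤ ε * H * Real.log N := by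
  obtain ⟨P, hPsub, η, hη0, hmain⟩ := logarithmic' PP hPP hdiv a ha hmul ε hε
  have hL : ∃ L : ℕ, 0 < L ∧ ∀ p ∈ P, ∀ q ∈ P, p ≠ q → ∀ i i' j,
      ‖∑ l ∈ Icc 1 L, F i (p * (j + l)) * (starRingEnd ℂ) (F i' (q * (j + l)))‖ ≤ η * L := by
    choose! L₀ hL₀ using horth
    refine ⟨1 + ∑ p ∈ P, ∑ q ∈ P, L₀ p q η, by omega, ?_⟩
    intro p hp q hq hpq i i' j
    refine hL₀ p (hPsub hp) q (hPsub hq) hpq η hη0 _ ?_ i i' j
    have h1 : L₀ p q η ≤ ∑ q ∈ P, L₀ p q η :=
      single_le_sum (f := fun q => L₀ p q η) (fun _ _ => Nat.zero_le _) hq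
    have h2 : ∑ q ∈ P, L₀ p q η ≤ ∑ p ∈ P, ∑ q ∈ P, L₀ p q η :=
      single_le_sum (f := fun p => ∑ q ∈ P, L₀ p q η) (fun _ _ => Nat.zero_le _) hp
    omega
  obtain ⟨L, hL0, hL⟩ := hL
  exact hmain L hL0 ι F hF hL

end Pool.Agent.Lib.MP_663568_nt.Katai
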