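import Mathlib
import Pool.Agent.Lib.MP_663568_nt.Log

set_option autoImplicit false
open Finset Polynomial

namespace Pool.Agent.Lib.MP_663568_nt.Katai

/-- `e(x) = exp(2 π i x)` -/
noncomputable def ee (x : ℝ) : ℂ := Complex.exp (2 * Real.pi * Complex.I * x)

lemma ee_add (x y : ℝ) : ee (x + y) = ee x * ee y := by
  rw [ee, ee, ee, ← Complex.exp_add]; congr 1; push_cast; ring

lemma norm_ee (x : ℝ) : ‖ee x‖ = 1 := by
  rw [ee, show (2 * Real.pi * Complex.I * x : ℂ) = ((2 * Real.pi * x : ℝ) : ℂ) * Complex.I by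
    push_cast; ring]
  exact Complex.norm_exp_ofReal_mul_I _

lemma conj_ee (x : ℝ) : (starRingEnd ℂ) (ee x) = ee (-x) := by
  rw [ee, ee, ← Complex.exp_conj]; congr 1
  rw [map_mul, map_mul, map_mul, Complex.conj_I, Complex.conj_ofReal, Complex.conj_ofReal,
    show (starRingEnd ℂ) 2 = 2 from map_ofNat _ 2]
  push_cast; ring

lemma ee_sub (x y : ℝ) : ee (x - y) = ee x * (starRingEnd ℂ) (ee y) := by
  rw [conj_ee, sub_eq_add_neg, ee_add]

lemma ee_int (n : ℤ) : ee (n : ℝ) = 1 := by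
  rw [ee, Complex.exp_eq_one_iff]
  exact ⟨n, by push_cast; ring⟩

lemma ee_eq_one_iff (x : ℝ) : ee x = 1 ↔ ∃ n : ℤ, x = n := by
  rw [ee, Complex.exp_eq_one_iff]
  constructor
  · rintro ⟨n, hn⟩
    refine ⟨n, ?_⟩
    have h2 : (2 * Real.pi * Complex.I : ℂ) ≠ 0 := by
      simp [Real.pi_ne_zero]
    have h3 : (2 * Real.pi * Complex.I : ℂ) * x = (2 * Real.pi * Complex.I : ℂ) * (n : ℂ) := by
      rw [hn]; ring
    have := mul_left_cancel₀ h2 h3
    exact_mod_cast this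
  · rintro ⟨n, rfl⟩
    exact ⟨n, by push_cast; ring⟩

lemma continuous_ee : Continuous ee := by
  unfold ee; fun_prop

lemma continuous_ee' : Continuous (fun x => ee x) := continuous_ee

/-- geometric sums -/
lemma geom_bound (α β : ℝ) (L : ℕ) :
    ‖1 - ee α‖ * ‖∑ l ∈ Icc 1 L, ee (α * l + β)‖ ≤ 2 := by
  rw [← norm_mul]
  have : (1 - ee α) * ∑ l ∈ Icc 1 L, ee (α * l + β) = ee (α + β) - ee (α * (L + 1) + β) := by
    induction L with
    | zero => simp
    | succ L ih =>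
      rw [sum_Icc_succ_top (by omega), mul_add, ih]
      have e1 : ee (α * ((L + 1 : ℕ) + 1) + β) = ee α * ee (α * ((L + 1 : ℕ)) + β) := by
        rw [← ee_add]; congr 1; ring
      rw [e1]; push_cast; ring
  rw [this]
  calc _ ≤ ‖ee (α + β)‖ + ‖ee (α * (L + 1) + β)‖ := norm_sub_le _ _
    _ = 2 := by rw [norm_ee, norm_ee]; norm_num

lemma coeff_shift_aux (P : ℝ[X]) (t : ℕ) (hP : P.natDegree ≤ t) (r : ℝ) (k : ℕ) :
    (P.comp (X + C r)).coeff k = ∑ i ∈ range (t + 1), P.coeff i * (r ^ (i - k) * (i.choose k : ℝ)) := by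
  conv_lhs => rw [P.as_sum_range_C_mul_X_pow' (n := t + 1) (by omega)]
  rw [Polynomial.sum_comp, finsetSum_coeff]
  apply sum_congr rfl; intro i _
  simp [coeff_X_add_C_pow]

lemma coeff_shift_top (P : ℝ[X]) (t : ℕ) (hP : P.natDegree ≤ t) (r : ℝ) :
    (P.comp (X + C r)).coeff t = P.coeff t := by
  rw [coeff_shift_aux P t hP, sum_range_succ]
  rw [sum_eq_zero]
  · simp
  · intro i hi; rw [mem_range] at hi
    rw [Nat.choose_eq_zero_of_lt hi]; simp

lemma coeff_shift_next (P : ℝ[X]) (t : ℕ) (hP : P.natDegree ≤ t + 1) (r : ℝ) :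
    (P.comp (X + C r)).coeff t = P.coeff t + (t + 1) * r * P.coeff (t + 1) := by
  rw [coeff_shift_aux P (t + 1) hP, sum_range_succ, sum_range_succ]
  rw [sum_eq_zero]
  · simp; ring
  · intro i hi; rw [mem_range] at hi
    rw [Nat.choose_eq_zero_of_lt hi]; simp

lemma natDegree_shift (P : ℝ[X]) (t : ℕ) (hP : P.natDegree ≤ t) (r : ℝ) :
    (P.comp (X + C r)).natDegree ≤ t := by
  rw [natDegree_comp, natDegree_X_add_C, mul_one]; exact hP

/-- **Uniform Weyl.** -/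
theorem weyl (t : ℕ) : ∀ K : Set ℝ, IsCompact K → (∀ α ∈ K, Irrational α) → ∀ ε : ℝ, 0 < ε →
    ∃ L₀ : ℕ, ∀ L : ℕ, L₀ ≤ L → ∀ P : ℝ[X], P.natDegree ≤ t + 1 → P.coeff (t + 1) ∈ K →
      ‖∑ l ∈ Icc 1 L, ee (P.eval (l : ℝ))‖ ≤ ε * L := by
  induction t with
  | zero =>
    intro K hK hirr ε hε
    rcases K.eq_empty_or_nonempty with rfl | hne
    · exact ⟨0, fun L _ P _ h => absurd h (Set.notMem_empty _)⟩
    obtain ⟨α₀, hα₀, hmin⟩ := hK.exists_isMinOn hne
      (f := fun α => ‖1 - ee α‖) (by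
        apply Continuous.continuousOn
        exact (continuous_const.sub continuous_ee).norm)
    set δ := ‖1 - ee α₀‖ with hδ
    have hδ0 : 0 < δ := by
      rw [hδ, norm_pos_iff, sub_ne_zero]
      intro h
      obtain ⟨n, hn⟩ := (ee_eq_one_iff α₀).mp h.symm
      exact hirr α₀ hα₀ ⟨n, by rw [hn]; simp⟩
    refine ⟨⌈2 / (δ * ε)⌉₊, ?_⟩
    intro L hL P hPd hPc
    have h1 : ∀ x : ℝ, P.eval x = P.coeff 1 * x + P.coeff 0 := by
      intro x
      rw [eval_eq_sum_range' (n := 2) (by omega)]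
      simp [sum_range_succ]; ring
    simp only [zero_add] at hPc
    have h2 : ‖∑ l ∈ Icc 1 L, ee (P.eval (l : ℝ))‖
        = ‖∑ l ∈ Icc 1 L, ee (P.coeff 1 * l + P.coeff 0)‖ := by
      congr 1; apply sum_congr rfl; intro l _; rw [h1]
    rw [h2]
    have h3 := geom_bound (P.coeff 1) (P.coeff 0) L
    have h4 : δ ≤ ‖1 - ee (P.coeff 1)‖ := hmin hPc
    have h5 : δ * ‖∑ l ∈ Icc 1 L, ee (P.coeff 1 * l + P.coeff 0)‖ ≤ 2 :=
      (mul_le_mul_of_nonneg_right h4 (norm_nonneg _)).trans h3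
    have h6 : 2 / (δ * ε) ≤ L := (Nat.le_ceil _).trans (Nat.cast_le.mpr hL)
    rw [div_le_iff₀ (by positivity)] at h6
    have h7 : δ * ‖∑ l ∈ Icc 1 L, ee (P.coeff 1 * l + P.coeff 0)‖ ≤ δ * (ε * L) := by linarith
    exact le_of_mul_le_mul_left h7 hδ0
  | succ t ih =>
    intro K hK hirr ε hε
    obtain ⟨R, hR0, hR⟩ : ∃ R : ℕ, 0 < R ∧ 8 / ε ^ 2 ≤ R :=
      ⟨⌈8 / ε ^ 2⌉₊ + 1, by omega, (Nat.le_ceil _).trans (Nat.cast_le.mpr (by omega))⟩
    have hRr : (0 : ℝ) < R := by exact_mod_cast hR0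
    -- the compact set of differenced leading coefficients
    set K' : Set ℝ := ⋃ r ∈ range R, ⋃ s ∈ (range R).filter (fun s => s ≠ r),
      (fun α : ℝ => ((t : ℝ) + 2) * ((r : ℝ) - s) * α) '' K with hK'
    have hK'c : IsCompact K' := by
      apply (range R).isCompact_biUnion; intro r _
      apply Finset.isCompact_biUnion; intro s _
      exact hK.image (by fun_prop)
    have hK'i : ∀ α ∈ K', Irrational α := by
      intro α hα
      simp only [hK', Set.mem_iUnion, Set.mem_image] at hα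
      obtain ⟨r, hr, s, hs, β, hβ, rfl⟩ := hα
      rw [mem_filter] at hs
      have h0 : ((t : ℤ) + 2) * ((r : ℤ) - s) ≠ 0 := by
        apply mul_ne_zero (by omega)
        have := hs.2; omega
      have := (hirr β hβ).intCast_mul h0
      push_cast at this
      exact this
    obtain ⟨L₀, hL₀⟩ := ih K' hK'c hK'i (ε ^ 2 / 8) (by positivity)
    refine ⟨L₀ + ⌈4 * (R : ℝ) / ε⌉₊ + 1, ?_⟩
    intro L hL P hPd hPc
    set u : ℕ → ℂ := fun m => ee (P.eval (m : ℝ)) with hu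
    have horth : ∀ r ∈ range R, ∀ s ∈ range R, r ≠ s →
        ‖∑ l ∈ Icc 1 L, u (l + r) * (starRingEnd ℂ) (u (l + s))‖ ≤ ε ^ 2 / 8 * L := by
      intro r hr s hs hrs
      have e : ∀ l : ℕ, u (l + r) * (starRingEnd ℂ) (u (l + s))
          = ee ((P.comp (X + C (r : ℝ)) - P.comp (X + C (s : ℝ))).eval (l : ℝ)) := by
        intro l
        simp only [hu]
        rw [← ee_sub]; congr 1
        simp
      simp only [e]
      apply hL₀ L (by omega)
      · rw [natDegree_le_iff_coeff_eq_zero]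
        intro N hN
        rw [coeff_sub]
        rcases Nat.lt_or_ge (t + 1 + 1) N with h | h
        · rw [coeff_eq_zero_of_natDegree_lt, coeff_eq_zero_of_natDegree_lt, sub_zero]
          · exact (natDegree_shift P _ hPd _).trans_lt h
          · exact (natDegree_shift P _ hPd _).trans_lt h
        · have : N = t + 1 + 1 := by omega
          rw [this, coeff_shift_top P _ hPd, coeff_shift_top P _ hPd, sub_self]
      · rw [coeff_sub, coeff_shift_next P (t + 1) hPd, coeff_shift_next P (t + 1) hPd]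
        simp only [hK', Set.mem_iUnion, Set.mem_image]
        refine ⟨r, hr, s, ?_, P.coeff (t + 1 + 1), hPc, ?_⟩
        · rw [mem_filter]; exact ⟨hs, hrs.symm⟩
        · push_cast; ring
    have hdual := duality (range R) L (ε ^ 2 / 8) (by positivity) (fun _ => 1)
      (fun _ => by simp) (fun r l => u (l + r)) (fun r l => (norm_ee _).le) horth
    simp only [mul_one, card_range] at hdual
    have hshift : ∀ r ∈ range R, ‖∑ l ∈ Icc 1 L, u l‖ ≤ ‖∑ l ∈ Icc 1 L, u (l + r)‖ + 2 * R := by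
      intro r hr
      rw [mem_range] at hr
      have e1 : ∑ l ∈ Icc 1 L, u (l + r) = ∑ m ∈ Ioc r (r + L), u m := by
        rw [← icc_ioc u r L]; apply sum_congr rfl; intro l _; rw [add_comm]
      have e2 : ∑ l ∈ Icc 1 L, u l + ∑ m ∈ Ioc L (r + L), u m
          = ∑ m ∈ Icc 1 r, u m + ∑ m ∈ Ioc r (r + L), u m := by
        rw [← sum_union, ← sum_union]
        · apply sum_congr _ (fun _ _ => rfl)
          ext x; simp only [mem_union, mem_Icc, mem_Ioc]; omega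
        · rw [disjoint_left]; intro x; simp only [mem_Icc, mem_Ioc]; omega
        · rw [disjoint_left]; intro x; simp only [mem_Icc, mem_Ioc]; omega
      have b1 : ‖∑ m ∈ Ioc L (r + L), u m‖ ≤ R := by
        calc _ ≤ ∑ m ∈ Ioc L (r + L), ‖u m‖ := norm_sum_le _ _
          _ = r := by simp [hu, norm_ee]
          _ ≤ R := by exact_mod_cast hr.le
      have b2 : ‖∑ m ∈ Icc 1 r, u m‖ ≤ R := by
        calc _ ≤ ∑ m ∈ Icc 1 r, ‖u m‖ := norm_sum_le _ _
          _ = r := by simp [hu, norm_ee]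
          _ ≤ R := by exact_mod_cast hr.le
      have e3 : ∑ l ∈ Icc 1 L, u l = ∑ l ∈ Icc 1 L, u (l + r)
          + (∑ m ∈ Icc 1 r, u m - ∑ m ∈ Ioc L (r + L), u m) := by
        rw [e1]; linear_combination e2
      rw [e3]
      calc _ ≤ ‖∑ l ∈ Icc 1 L, u (l + r)‖ + ‖∑ m ∈ Icc 1 r, u m - ∑ m ∈ Ioc L (r + L), u m‖ :=
            norm_add_le _ _
        _ ≤ ‖∑ l ∈ Icc 1 L, u (l + r)‖ + (‖∑ m ∈ Icc 1 r, u m‖ + ‖∑ m ∈ Ioc L (r + L), u m‖) := by
            gcongr; exact norm_sub_le _ _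
        _ ≤ _ := by linarith
    have hsum : (R : ℝ) * ‖∑ l ∈ Icc 1 L, u l‖
        ≤ L * √((R : ℝ) + ε ^ 2 / 8 * (R : ℝ) ^ 2) + 2 * R * R := by
      calc (R : ℝ) * ‖∑ l ∈ Icc 1 L, u l‖ = ∑ r ∈ range R, ‖∑ l ∈ Icc 1 L, u l‖ := by simp
        _ ≤ ∑ r ∈ range R, (‖∑ l ∈ Icc 1 L, u (l + r)‖ + 2 * R) := sum_le_sum hshift
        _ = ∑ r ∈ range R, ‖∑ l ∈ Icc 1 L, u (l + r)‖ + 2 * R * R := by
            rw [sum_add_distrib]; simp; ring
        _ ≤ _ := by linarith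
    have hsq : √((R : ℝ) + ε ^ 2 / 8 * (R : ℝ) ^ 2) ≤ ε / 2 * R := by
      rw [Real.sqrt_le_left (by positivity)]
      rw [div_le_iff₀ (by positivity)] at hR
      nlinarith
    have hL4 : 4 * (R : ℝ) / ε ≤ L := (Nat.le_ceil _).trans (Nat.cast_le.mpr (by omega))
    rw [div_le_iff₀ hε] at hL4
    have hLr : (0 : ℝ) ≤ L := by positivity
    have hfin : (R : ℝ) * ‖∑ l ∈ Icc 1 L, u l‖ ≤ R * (ε * L) := by
      calc _ ≤ _ := hsum
        _ ≤ L * (ε / 2 * R) + 2 * R * R := by gcongr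
        _ ≤ _ := by nlinarith
    exact le_of_mul_le_mul_left hfin hRr

end Pool.Agent.Lib.MP_663568_nt.Katai
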