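import Mathlib
import Pool.Agent.Lib.MP_663568_nt.Weyl

set_option autoImplicit false
open Finset Polynomial

namespace Pool.Agent.Lib.MP_663568_nt.Katai

lemma norm_ee_sub_one_le (x : ℝ) : ‖ee x - 1‖ ≤ 2 * Real.pi * |x| := by
  have h := Real.norm_exp_I_mul_ofReal_sub_one_le (x := 2 * Real.pi * x)
  have e : ee x = Complex.exp (Complex.I * ((2 * Real.pi * x : ℝ) : ℂ)) := by
    rw [ee]; congr 1; push_cast; ring
  rw [e]
  refine h.trans (le_of_eq ?_)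
  rw [Real.norm_eq_abs, abs_mul, abs_of_pos (by positivity)]

lemma norm_ee_sub_ee_le (x y : ℝ) : ‖ee x - ee y‖ ≤ 2 * Real.pi * |x - y| := by
  have e : ee x - ee y = ee y * (ee (x - y) - 1) := by
    rw [mul_sub, ← ee_add, mul_one]; congr 2; ring
  rw [e, norm_mul, norm_ee, one_mul]
  exact norm_ee_sub_one_le _

/-- coefficients after `x ↦ p (x + j)` -/
lemma comp_dilate (P : ℝ[X]) (d : ℕ) (hP : P.natDegree ≤ d) (p j : ℝ) :
    (P.comp (C p * (X + C j))).natDegree ≤ d ∧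
    (P.comp (C p * (X + C j))).coeff d = p ^ d * P.coeff d := by
  have e : P.comp (C p * (X + C j)) = (P.comp (C p * X)).comp (X + C j) := by
    rw [comp_assoc]; simp
  have h1 : (P.comp (C p * X)).natDegree ≤ d := by
    rw [natDegree_le_iff_coeff_eq_zero]
    intro N hN
    rw [comp_C_mul_X_coeff, coeff_eq_zero_of_natDegree_lt (hP.trans_lt hN), zero_mul]
  rw [e]
  refine ⟨natDegree_shift _ _ h1 _, ?_⟩
  rw [coeff_shift_top _ _ h1, comp_C_mul_X_coeff, mul_comm]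

/-- Polynomials of degree at most `d` whose `d`-th coefficient is within `δ` of `K`. -/
def NearPoly (d : ℕ) (K : Set ℝ) (δ : ℝ) : Type :=
  {P : ℝ[X] // P.natDegree ≤ d ∧ ∃ α ∈ K, |P.coeff d - α| < δ}

/-- the phases -/
noncomputable def phase (d : ℕ) (K : Set ℝ) (δ : ℝ) (P : NearPoly d K δ) (n : ℕ) : ℂ :=
  ee (P.1.eval (n : ℝ))

theorem near_orth (d : ℕ) (hd : 0 < d) (K : Set ℝ) (hK : IsCompact K) (PP : Set ℕ)
    (hindep : ∀ p ∈ PP, ∀ q ∈ PP, p ≠ q → ∀ α ∈ K, ∀ β ∈ K,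
      Irrational ((p : ℝ) ^ d * α - (q : ℝ) ^ d * β))
    (P : Finset ℕ) (hP : ↑P ⊆ PP) (η : ℝ) (hη : 0 < η) :
    ∃ L : ℕ, 0 < L ∧ ∃ δ : ℝ, 0 < δ ∧ ∀ p ∈ P, ∀ q ∈ P, p ≠ q →
      ∀ (i i' : NearPoly d K δ) (j : ℕ),
      ‖∑ l ∈ Icc 1 L, phase d K δ i (p * (j + l)) *
        (starRingEnd ℂ) (phase d K δ i' (q * (j + l)))‖ ≤ η * L := by
  obtain ⟨t, rfl⟩ : ∃ t, d = t + 1 := ⟨d - 1, by omega⟩
  set d := t + 1 with hd'
  -- Weyl for each pair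
  have hW : ∀ p ∈ P, ∀ q ∈ P, p ≠ q → ∃ L₀ : ℕ, ∀ L : ℕ, L₀ ≤ L → ∀ Q : ℝ[X],
      Q.natDegree ≤ d → Q.coeff d ∈
        (fun x : ℝ × ℝ => (p : ℝ) ^ d * x.1 - (q : ℝ) ^ d * x.2) '' (K ×ˢ K) →
      ‖∑ l ∈ Icc 1 L, ee (Q.eval (l : ℝ))‖ ≤ η / 2 * L := by
    intro p hp q hq hpq
    apply weyl t _ _ _ (η / 2) (by positivity)
    · exact (hK.prod hK).image (by fun_prop)
    · rintro _ ⟨⟨α, β⟩, ⟨h1, h2⟩, rfl⟩
      exact hindep p (hP hp) q (hP hq) hpq α h1 β h2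
  choose! L₀ hL₀ using hW
  set L : ℕ := 1 + ∑ p ∈ P, ∑ q ∈ P, L₀ p q with hL
  have hLp : ∀ p ∈ P, ∀ q ∈ P, L₀ p q ≤ L := by
    intro p hp q hq
    have h1 : L₀ p q ≤ ∑ q ∈ P, L₀ p q :=
      single_le_sum (f := fun q => L₀ p q) (fun _ _ => Nat.zero_le _) hq
    have h2 : ∑ q ∈ P, L₀ p q ≤ ∑ p ∈ P, ∑ q ∈ P, L₀ p q :=
      single_le_sum (f := fun p => ∑ q ∈ P, L₀ p q) (fun _ _ => Nat.zero_le _) hp
    omega
  set S : ℝ := ∑ p ∈ P, (p : ℝ) ^ d with hS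
  have hS0 : 0 ≤ S := sum_nonneg (fun _ _ => by positivity)
  have hSp : ∀ p ∈ P, (p : ℝ) ^ d ≤ S := fun p hp =>
    single_le_sum (f := fun p : ℕ => (p : ℝ) ^ d) (fun _ _ => by positivity) hp
  have hpi := Real.pi_pos
  set D : ℝ := 2 * Real.pi * (2 * S) * (L : ℝ) ^ d + 1 with hD
  have hD0 : 0 < D := by positivity
  refine ⟨L, by omega, η / 2 / D, by positivity, ?_⟩
  intro p hp q hq hpq i i' j
  obtain ⟨Pi, hPi, α, hα, hαd⟩ := i
  obtain ⟨Pj, hPj, β, hβ, hβd⟩ := i'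
  obtain ⟨n1, c1⟩ := comp_dilate Pi d hPi p j
  obtain ⟨n2, c2⟩ := comp_dilate Pj d hPj q j
  set R : ℝ[X] := Pi.comp (C (p : ℝ) * (X + C (j : ℝ))) - Pj.comp (C (q : ℝ) * (X + C (j : ℝ)))
    with hR
  have hRd : R.natDegree ≤ d := (natDegree_sub_le _ _).trans (max_le n1 n2)
  have hRc : R.coeff d = (p : ℝ) ^ d * Pi.coeff d - (q : ℝ) ^ d * Pj.coeff d := by
    rw [hR, coeff_sub, c1, c2]
  set Δ : ℝ := ((p : ℝ) ^ d * α - (q : ℝ) ^ d * β) - R.coeff d with hΔ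
  have hΔb : |Δ| ≤ 2 * S * (η / 2 / D) := by
    have e : Δ = -((p : ℝ) ^ d * (Pi.coeff d - α)) + (q : ℝ) ^ d * (Pj.coeff d - β) := by
      rw [hΔ, hRc]; ring
    rw [e]
    calc _ ≤ |-((p : ℝ) ^ d * (Pi.coeff d - α))| + |(q : ℝ) ^ d * (Pj.coeff d - β)| := abs_add_le _ _
      _ = (p : ℝ) ^ d * |Pi.coeff d - α| + (q : ℝ) ^ d * |Pj.coeff d - β| := by
          rw [abs_neg, abs_mul, abs_mul, abs_of_nonneg (show (0:ℝ) ≤ (p : ℝ) ^ d by positivity),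
            abs_of_nonneg (show (0:ℝ) ≤ (q : ℝ) ^ d by positivity)]
      _ ≤ S * (η / 2 / D) + S * (η / 2 / D) := by
          apply add_le_add
          · exact mul_le_mul (hSp p hp) hαd.le (abs_nonneg _) hS0
          · exact mul_le_mul (hSp q hq) hβd.le (abs_nonneg _) hS0
      _ = _ := by ring
  set Q : ℝ[X] := R + C Δ * X ^ d with hQ
  have hQd : Q.natDegree ≤ d := by
    refine (natDegree_add_le _ _).trans (max_le hRd ?_)
    exact natDegree_C_mul_X_pow_le _ _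
  have hQc : Q.coeff d = (p : ℝ) ^ d * α - (q : ℝ) ^ d * β := by
    rw [hQ, coeff_add, coeff_C_mul_X_pow, if_pos rfl, hΔ]; ring
  have h1 : ‖∑ l ∈ Icc 1 L, ee (Q.eval (l : ℝ))‖ ≤ η / 2 * L :=
    hL₀ p hp q hq hpq L (hLp p hp q hq) Q hQd ⟨(α, β), ⟨hα, hβ⟩, hQc.symm⟩
  have h2 : ∀ l ∈ Icc 1 L, phase d K (η / 2 / D) ⟨Pi, hPi, α, hα, hαd⟩ (p * (j + l)) *
        (starRingEnd ℂ) (phase d K (η / 2 / D) ⟨Pj, hPj, β, hβ, hβd⟩ (q * (j + l)))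
        = ee (Q.eval (l : ℝ)) + (ee (R.eval (l : ℝ)) - ee (Q.eval (l : ℝ))) := by
    intro l _
    simp only [phase]
    rw [← ee_sub]
    have : R.eval (l : ℝ) = Pi.eval ((p * (j + l) : ℕ) : ℝ) - Pj.eval ((q * (j + l) : ℕ) : ℝ) := by
      rw [hR]; simp [add_comm]
    rw [this]; ring
  rw [sum_congr rfl h2, sum_add_distrib]
  have h3 : ‖∑ l ∈ Icc 1 L, (ee (R.eval (l : ℝ)) - ee (Q.eval (l : ℝ)))‖ ≤ η / 2 * L := by
    calc _ ≤ ∑ l ∈ Icc 1 L, ‖ee (R.eval (l : ℝ)) - ee (Q.eval (l : ℝ))‖ := norm_sum_le _ _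
      _ ≤ ∑ l ∈ Icc 1 L, η / 2 := by
          apply sum_le_sum; intro l hl
          rw [mem_Icc] at hl
          refine (norm_ee_sub_ee_le _ _).trans ?_
          have e : R.eval (l : ℝ) - Q.eval (l : ℝ) = -(Δ * (l : ℝ) ^ d) := by
            rw [hQ]; simp
          rw [e, abs_neg, abs_mul, abs_of_nonneg (show (0:ℝ) ≤ (l : ℝ) ^ d by positivity)]
          have hl' : (l : ℝ) ^ d ≤ (L : ℝ) ^ d := by
            gcongr; exact_mod_cast hl.2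
          calc 2 * Real.pi * (|Δ| * (l : ℝ) ^ d)
              ≤ 2 * Real.pi * ((2 * S * (η / 2 / D)) * (L : ℝ) ^ d) := by gcongr
            _ = (η / 2) * ((D - 1) / D) := by rw [hD]; field_simp; ring
            _ ≤ (η / 2) * 1 := by
                apply mul_le_mul_of_nonneg_left _ (by positivity)
                rw [div_le_one hD0]; linarith
            _ = η / 2 := mul_one _
      _ = η / 2 * L := by simp; ring
  calc _ ≤ _ := norm_add_le _ _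
    _ ≤ η / 2 * L + η / 2 * L := add_le_add h1 h3
    _ = _ := by ring

/-- Q1 for polynomial phases of degree `d` with top coefficient near `K` and all lower
coefficients free; any bounded function multiplicative at the primes of `PP`. -/
theorem near_poly (d : ℕ) (hd : 0 < d) (K : Set ℝ) (hK : IsCompact K) (PP : Set ℕ)
    (hPP : ∀ p ∈ PP, p.Prime)
    (hdiv : ¬ Summable (PP.indicator (fun p : ℕ => (1 : ℝ) / p)))
    (hindep : ∀ p ∈ PP, ∀ q ∈ PP, p ≠ q → ∀ α ∈ K, ∀ β ∈ K,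
      Irrational ((p : ℝ) ^ d * α - (q : ℝ) ^ d * β))
    (a : ℕ → ℂ) (ha : ∀ n, ‖a n‖ ≤ 1)
    (hmul : ∀ p ∈ PP, ∀ m, ¬ p ∣ m → a (p * m) = a p * a m) (ε : ℝ) (hε : 0 < ε) :
    ∃ δ : ℝ, 0 < δ ∧ ∃ H₀ : ℕ, ∀ N H : ℕ, H₀ ≤ H → H ≤ N →
      ∑ n ∈ Icc 1 N, (1 / (n : ℝ)) * GG (phase d K δ) a H n ≤ ε * H * Real.log N := by
  obtain ⟨P, hPsub, η, hη, hmain⟩ := logarithmic' PP hPP hdiv a ha hmul ε hε
  obtain ⟨L, hL0, δ, hδ, horth⟩ := near_orth d hd K hK PP hindep P hPsub η hη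
  exact ⟨δ, hδ, hmain L hL0 _ (phase d K δ) (fun _ _ => (norm_ee _).le) horth⟩

end Pool.Agent.Lib.MP_663568_nt.Katai
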