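import Mathlib
import Pool.Agent.Lib.MP_663568_nt.Weyl

set_option autoImplicit false
open Finset MeasureTheory UnitAddTorus

namespace Pool.Agent.Lib.MP_663568_nt.Katai

noncomputable local instance : MeasureSpace UnitAddCircle := ⟨AddCircle.haarAddCircle⟩

local instance : Measure.IsAddHaarMeasure (volume : Measure UnitAddCircle) :=
  inferInstanceAs (Measure.IsAddHaarMeasure AddCircle.haarAddCircle)

local instance : IsProbabilityMeasure (volume : Measure UnitAddCircle) :=
  inferInstanceAs (IsProbabilityMeasure AddCircle.haarAddCircle)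

variable {d : Type} [Fintype d]

lemma trig_approx (u : C(UnitAddTorus d, ℂ)) (ε : ℝ) (hε : 0 < ε) :
    ∃ (S : Finset (d → ℤ)) (a : (d → ℤ) → ℂ), ∀ x, ‖u x - ∑ κ ∈ S, a κ * mFourier κ x‖ ≤ ε := by
  have h : u ∈ (Submodule.span ℂ (Set.range <| mFourier (d := d))).topologicalClosure := by
    rw [span_mFourier_closure_eq_top]; trivial
  have h' : u ∈ closure ((Submodule.span ℂ (Set.range <| mFourier (d := d)) :
      Set C(UnitAddTorus d, ℂ))) := h
  obtain ⟨T, hT, hd⟩ := Metric.mem_closure_iff.mp h' ε hε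
  obtain ⟨c, hc⟩ := (Finsupp.mem_span_range_iff_exists_finsupp).mp hT
  refine ⟨c.support, c, ?_⟩
  intro x
  have h1 : T x = ∑ κ ∈ c.support, c κ * mFourier κ x := by
    rw [← hc, Finsupp.sum]
    simp [ContinuousMap.coe_sum, Finset.sum_apply]
  rw [← h1]
  have h2 : ‖u x - T x‖ ≤ ‖u - T‖ := (u - T).norm_coe_le_norm x
  rw [dist_eq_norm] at hd
  exact h2.trans hd.le

lemma integral_mFourier_ne (κ : d → ℤ) (hκ : κ ≠ 0) :
    ∫ x : UnitAddTorus d, mFourier κ x = 0 := by
  have h := (orthonormal_iff_ite.mp (orthonormal_mFourier (d := d))) 0 κ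
  rw [if_neg hκ.symm, ContinuousMap.inner_toLp] at h
  simpa [mFourier_zero] using h

lemma trig_approx_zero (u : C(UnitAddTorus d, ℂ)) (hu : ∫ x : UnitAddTorus d, u x = 0)
    (ε : ℝ) (hε : 0 < ε) :
    ∃ (S : Finset (d → ℤ)) (a : (d → ℤ) → ℂ), 0 ∉ S ∧
      ∀ x, ‖u x - ∑ κ ∈ S, a κ * mFourier κ x‖ ≤ ε := by
  classical
  obtain ⟨S, a, h⟩ := trig_approx u (ε / 2) (by positivity)
  refine ⟨S.erase 0, a, by simp, ?_⟩
  intro x
  by_cases h0 : (0 : d → ℤ) ∈ S
  · have hint : ∀ κ ∈ S, Integrable (fun x : UnitAddTorus d => a κ * mFourier κ x) := by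
      intro κ _
      exact ((mFourier κ).continuous.integrable_of_hasCompactSupport
        (HasCompactSupport.of_compactSpace _)).const_mul _
    have hui : Integrable (fun x : UnitAddTorus d => u x) :=
      u.continuous.integrable_of_hasCompactSupport (HasCompactSupport.of_compactSpace _)
    have h1 : ∫ x : UnitAddTorus d, (u x - ∑ κ ∈ S, a κ * mFourier κ x) = - a 0 := by
      rw [integral_sub hui (integrable_finsetSum _ hint), hu, zero_sub,
        integral_finsetSum _ hint]
      congr 1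
      rw [← Finset.add_sum_erase S _ h0]
      rw [sum_eq_zero]
      · rw [integral_const_mul, mFourier_zero]
        simp
      · intro κ hκ
        rw [integral_const_mul, integral_mFourier_ne κ (ne_of_mem_erase hκ), mul_zero]
    have h2 : ‖a 0‖ ≤ ε / 2 := by
      rw [← norm_neg, ← h1]
      have := norm_integral_le_of_norm_le_const (μ := (volume : Measure (UnitAddTorus d)))
        (f := fun x => u x - ∑ κ ∈ S, a κ * mFourier κ x) (C := ε / 2)
        (Filter.Eventually.of_forall h)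
      simpa using this
    have h3 : u x - ∑ κ ∈ S.erase 0, a κ * mFourier κ x
        = (u x - ∑ κ ∈ S, a κ * mFourier κ x) + a 0 := by
      rw [← Finset.add_sum_erase S _ h0, mFourier_zero]
      simp only [ContinuousMap.one_apply, mul_one]
      ring
    rw [h3]
    calc _ ≤ ‖u x - ∑ κ ∈ S, a κ * mFourier κ x‖ + ‖a 0‖ := norm_add_le _ _
      _ ≤ ε / 2 + ε / 2 := add_le_add (h x) h2
      _ = ε := by ring
  · rw [erase_eq_of_notMem h0]
    exact (h x).trans (by linarith)

/-- Functions on `ℝ^d` that are continuous and periodic with zero mean. -/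
lemma periodic_approx (F : (d → ℝ) → ℂ) (hF : Continuous F)
    (hper : ∀ (c : d → ℝ) (z : d → ℤ), F (c + fun i => (z i : ℝ)) = F c)
    (hmean : ∫ c in {c : d → ℝ | ∀ i, c i ∈ Set.Ioc (0 : ℝ) 1}, F c = 0)
    (ε : ℝ) (hε : 0 < ε) :
    ∃ (S : Finset (d → ℤ)) (a : (d → ℤ) → ℂ), 0 ∉ S ∧
      ∀ c, ‖F c - ∑ κ ∈ S, a κ * ee (∑ i, (κ i : ℝ) * c i)‖ ≤ ε := by
  have hq : IsOpenQuotientMap (Pi.map (fun _ : d => ((↑) : ℝ → UnitAddCircle))) :=
    IsOpenQuotientMap.piMap (fun _ => QuotientAddGroup.isOpenQuotientMap_mk)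
  have hcomp : ∀ c c' : d → ℝ, (Pi.map (fun _ : d => ((↑) : ℝ → UnitAddCircle))) c
      = (Pi.map (fun _ : d => ((↑) : ℝ → UnitAddCircle))) c' → F c = F c' := by
    intro c c' h
    have h1 : ∀ i, ∃ z : ℤ, c i = c' i + z := by
      intro i
      have h2 : ((c i : ℝ) : UnitAddCircle) = (c' i : ℝ) := congrFun h i
      rw [eq_comm, QuotientAddGroup.eq, AddSubgroup.mem_zmultiples_iff] at h2
      obtain ⟨z, hz⟩ := h2
      exact ⟨z, by rw [zsmul_eq_mul, mul_one] at hz; rw [hz]; ring⟩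
    choose z hz using h1
    rw [← hper c' z]
    congr 1
    funext i
    exact hz i
  set π : C(d → ℝ, UnitAddTorus d) :=
    ⟨Pi.map (fun _ : d => ((↑) : ℝ → UnitAddCircle)), hq.continuous⟩ with hπ
  have hπq : Topology.IsQuotientMap (π : (d → ℝ) → UnitAddTorus d) := hq.isQuotientMap
  have hfac : Function.FactorsThrough (⟨F, hF⟩ : C(d → ℝ, ℂ)) π := fun c c' h => hcomp c c' h
  set u : C(UnitAddTorus d, ℂ) := hπq.lift ⟨F, hF⟩ hfac with hu
  have huc : ∀ c : d → ℝ, u (fun i => (c i : UnitAddCircle)) = F c := by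
    intro c
    have := hπq.lift_comp ⟨F, hF⟩ hfac
    exact congrArg (fun g : C(d → ℝ, ℂ) => g c) this
  have hmean' : ∫ x : UnitAddTorus d, u x = 0 := by
    rw [integral_preimage (fun x => u x) (fun _ => 0)]
    simp only [zero_add, huc]
    exact hmean
  obtain ⟨S, a, hS, h⟩ := trig_approx_zero u hmean' ε hε
  refine ⟨S, a, hS, ?_⟩
  intro c
  have h1 := h (fun i => (c i : UnitAddCircle))
  rw [huc] at h1
  convert h1 using 4 with κ hκ
  congr 1
  simp only [mFourier, ContinuousMap.coe_mk, fourier_coe_apply, ee]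
  rw [← Complex.exp_sum]
  congr 1
  push_cast
  rw [mul_sum]
  apply sum_congr rfl
  intro i _
  ring

end Pool.Agent.Lib.MP_663568_nt.Katai
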