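import Mathlib

set_option autoImplicit false
open Finset
open scoped Manifold

namespace Pool.Agent.Lib.MP_663568_nt

/-- The underlying manifold of the group `ℝ ⋉ ℝ^(r+1)`: pairs `(s, c)`, `s` real,
`c = (c_0, …, c_r)` a real vector. -/
def NilG (r : ℕ) : Type := ℝ × (Fin (r + 1) → ℝ)

namespace NilG

variable {r : ℕ}

noncomputable instance : NormedAddCommGroup (NilG r) :=
  inferInstanceAs (NormedAddCommGroup (ℝ × (Fin (r + 1) → ℝ)))

noncomputable instance : NormedSpace ℝ (NilG r) :=
  inferInstanceAs (NormedSpace ℝ (ℝ × (Fin (r + 1) → ℝ)))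

noncomputable instance : ChartedSpace (ℝ × (Fin (r + 1) → ℝ)) (NilG r) :=
  chartedSpaceSelf (ℝ × (Fin (r + 1) → ℝ))

/-- `k`-th coordinate of `c`, equal to `0` for `k > r`. -/
def co (c : Fin (r + 1) → ℝ) (k : ℕ) : ℝ := if h : k < r + 1 then c ⟨k, h⟩ else 0

/-- The unipotent linear action of `s ∈ ℝ` on `ℝ^(r+1)`:
`(shift s c)_j = ∑_{i ≤ r} binom(s, i) c_{j+i}`, i.e. `(1 + N)^s` for the nilpotent shift `N`. -/
noncomputable def shift (s : ℝ) (c : Fin (r + 1) → ℝ) : Fin (r + 1) → ℝ :=
  fun j => ∑ i ∈ range (r + 1), Ring.choose s i * co c (j + i)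

lemma co_of_lt (c : Fin (r + 1) → ℝ) (k : ℕ) (h : k < r + 1) : co c k = c ⟨k, h⟩ := by
  simp [co, h]

lemma co_of_ge (c : Fin (r + 1) → ℝ) (k : ℕ) (h : r + 1 ≤ k) : co c k = 0 := by
  simp [co, Nat.not_lt.mpr h]

lemma co_fin (c : Fin (r + 1) → ℝ) (j : Fin (r + 1)) : co c j = c j := by
  rw [co_of_lt c j j.2]

lemma co_add (c c' : Fin (r + 1) → ℝ) (k : ℕ) : co (c + c') k = co c k + co c' k := by
  by_cases h : k < r + 1 <;> simp [co, h]

lemma co_neg (c : Fin (r + 1) → ℝ) (k : ℕ) : co (-c) k = - co c k := by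
  by_cases h : k < r + 1 <;> simp [co, h]

lemma co_zero (k : ℕ) : co (0 : Fin (r + 1) → ℝ) k = 0 := by
  by_cases h : k < r + 1 <;> simp [co, h]

lemma co_ext (c c' : Fin (r + 1) → ℝ) (h : ∀ k, co c k = co c' k) : c = c' := by
  funext j
  rw [← co_fin c j, ← co_fin c' j, h]

lemma co_shift (s : ℝ) (c : Fin (r + 1) → ℝ) (j : ℕ) :
    co (shift s c) j = ∑ i ∈ range (r + 1), Ring.choose s i * co c (j + i) := by
  by_cases h : j < r + 1
  · rw [co_of_lt _ _ h]; rfl
  · rw [co_of_ge _ _ (by omega), sum_eq_zero]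
    intro i _
    rw [co_of_ge _ _ (by omega), mul_zero]

lemma shift_add_right (s : ℝ) (c c' : Fin (r + 1) → ℝ) :
    shift s (c + c') = shift s c + shift s c' := by
  apply co_ext; intro k
  rw [co_add, co_shift, co_shift, co_shift, ← sum_add_distrib]
  apply sum_congr rfl; intro i _
  rw [co_add]; ring

lemma shift_neg_right (s : ℝ) (c : Fin (r + 1) → ℝ) : shift s (-c) = - shift s c := by
  apply co_ext; intro k
  rw [co_neg, co_shift, co_shift, ← sum_neg_distrib]
  apply sum_congr rfl; intro i _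
  rw [co_neg]; ring

lemma shift_zero_right (s : ℝ) : shift s (0 : Fin (r + 1) → ℝ) = 0 := by
  apply co_ext; intro k
  rw [co_shift, co_zero, sum_eq_zero]
  intro i _; rw [co_zero, mul_zero]

lemma shift_zero (c : Fin (r + 1) → ℝ) : shift 0 c = c := by
  apply co_ext; intro k
  rw [co_shift, sum_range_succ']
  rw [sum_eq_zero]
  · simp
  · intro i _
    rw [Ring.choose_zero_succ, zero_mul]

lemma shift_shift (s s' : ℝ) (c : Fin (r + 1) → ℝ) : shift s (shift s' c) = shift (s + s') c := by
  apply co_ext; intro j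
  rw [co_shift, co_shift]
  have h1 : ∀ i ∈ range (r + 1), Ring.choose s i * co (shift s' c) (j + i)
      = ∑ i' ∈ range (r + 1 - i), Ring.choose s i * Ring.choose s' i' * co c (j + (i + i')) := by
    intro i hi
    rw [mem_range] at hi
    rw [co_shift, mul_sum]
    symm
    apply sum_subset_zero_on_sdiff
    · intro x; simp only [mem_range]; omega
    · intro x hx
      simp only [mem_sdiff, mem_range] at hx
      rw [co_of_ge _ _ (by omega)]; ring
    · intro x _
      rw [add_assoc]; ring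
  rw [sum_congr rfl h1]
  rw [← sum_range_diag_flip (r + 1)
    (fun i i' => Ring.choose s i * Ring.choose s' i' * co c (j + (i + i')))]
  apply sum_congr rfl
  intro m _
  rw [Ring.add_choose_eq m (Commute.all s s'), sum_mul,
    Nat.sum_antidiagonal_eq_sum_range_succ_mk]
  apply sum_congr rfl
  intro i hi
  rw [mem_range] at hi
  have : i + (m - i) = m := by omega
  rw [this]

/-- the point `(s, c)` -/
def mk (s : ℝ) (c : Fin (r + 1) → ℝ) : NilG r := (s, c)

/-- first coordinate `s` -/
def fs (x : NilG r) : ℝ := Prod.fst x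

/-- second coordinate `c` -/
def sn (x : NilG r) : Fin (r + 1) → ℝ := Prod.snd x

@[simp] lemma fs_mk (s : ℝ) (c : Fin (r + 1) → ℝ) : fs (mk s c) = s := rfl
@[simp] lemma sn_mk (s : ℝ) (c : Fin (r + 1) → ℝ) : sn (mk s c) = c := rfl

lemma ext' (x y : NilG r) (h1 : fs x = fs y) (h2 : sn x = sn y) : x = y := Prod.ext h1 h2

/-- multiplication `(s, c) (s', c') = (s + s', shift s' c + c')` -/
noncomputable instance : Mul (NilG r) := ⟨fun x y => mk (fs x + fs y) (shift (fs y) (sn x) + sn y)⟩

noncomputable instance : One (NilG r) := ⟨mk 0 0⟩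

noncomputable instance : Inv (NilG r) := ⟨fun x => mk (-fs x) (-shift (-fs x) (sn x))⟩

@[simp] lemma fs_mul (x y : NilG r) : fs (x * y) = fs x + fs y := rfl
@[simp] lemma sn_mul (x y : NilG r) : sn (x * y) = shift (fs y) (sn x) + sn y := rfl
@[simp] lemma fs_one : fs (1 : NilG r) = 0 := rfl
@[simp] lemma sn_one : sn (1 : NilG r) = 0 := rfl
@[simp] lemma fs_inv (x : NilG r) : fs (x⁻¹) = -fs x := rfl
@[simp] lemma sn_inv (x : NilG r) : sn (x⁻¹) = -shift (-fs x) (sn x) := rfl

noncomputable instance : Group (NilG r) where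
  mul_assoc x y z := by
    apply ext'
    · simp only [fs_mul]; ring
    · simp only [sn_mul, fs_mul]
      rw [shift_add_right, shift_shift, add_assoc, add_comm (fs z) (fs y)]
  one_mul x := by
    apply ext'
    · simp
    · simp [shift_zero_right]
  mul_one x := by
    apply ext'
    · simp
    · simp [shift_zero]
  inv_mul_cancel x := by
    apply ext'
    · simp
    · simp only [sn_mul, sn_inv, sn_one]
      rw [shift_neg_right, shift_shift, add_neg_cancel, shift_zero, neg_add_cancel]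

/-- The lattice of points with integer coordinates. -/
def Gam (r : ℕ) : Subgroup (NilG r) where
  carrier := {x | (∃ m : ℤ, fs x = m) ∧ ∀ k, ∃ z : ℤ, co (sn x) k = z}
  mul_mem' := by
    rintro x y ⟨⟨m, hm⟩, hx⟩ ⟨⟨m', hm'⟩, hy⟩
    choose z hz using hx
    choose z' hz' using hy
    refine ⟨⟨m + m', by simp [hm, hm']⟩, ?_⟩
    intro k
    refine ⟨∑ i ∈ range (r + 1), Ring.choose m' i * z (k + i) + z' k, ?_⟩
    rw [sn_mul, co_add, co_shift, hz', hm']
    push_cast
    congr 1
    apply sum_congr rfl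
    intro i _
    rw [hz]
    have := Ring.map_choose (Int.castRingHom ℝ) m' i
    simp only [eq_intCast] at this
    rw [this]
  one_mem' := ⟨⟨0, by simp⟩, fun k => ⟨0, by simp [co_zero]⟩⟩
  inv_mem' := by
    rintro x ⟨⟨m, hm⟩, hx⟩
    choose z hz using hx
    refine ⟨⟨-m, by simp [hm]⟩, ?_⟩
    intro k
    refine ⟨-∑ i ∈ range (r + 1), Ring.choose (-m) i * z (k + i), ?_⟩
    rw [sn_inv, co_neg, co_shift, hm]
    push_cast
    congr 1
    apply sum_congr rfl
    intro i _
    rw [hz]
    have := Ring.map_choose (Int.castRingHom ℝ) (-m) i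
    simp only [eq_intCast] at this
    rw [this]; push_cast; rfl

/-- The elements `g = (1, c)` with `c_0, …, c_{r-1}` arbitrary and `c_r` at distance less than `δ`
from some point of `K`. -/
def TopNear (r : ℕ) (K : Set ℝ) (δ : ℝ) : Set (NilG r) :=
  {g | fs g = 1 ∧ ∃ α ∈ K, |sn g (Fin.last r) - α| < δ}

end NilG

end Pool.Agent.Lib.MP_663568_nt
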