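import Mathlib
import Pool.Agent.Lib.MP_663568_nt.Defs

set_option autoImplicit false
open Finset
open scoped Manifold ContDiff

namespace Pool.Agent.Lib.MP_663568_nt

namespace NilG

variable {r : ℕ}

lemma choose_succ_mul (x : ℝ) (k : ℕ) :
    ((k : ℝ) + 1) * Ring.choose x (k + 1) = Ring.choose x k * (x - k) := by
  have h := Ring.choose_smul_choose x (n := k + 1) (k := k) (Nat.le_succ k)
  rw [Nat.choose_succ_self_right, Nat.add_sub_cancel_left, Ring.choose_one_right, nsmul_eq_mul] at h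
  push_cast at h
  exact h

lemma choose_succ' (x : ℝ) (k : ℕ) :
    Ring.choose x (k + 1) = Ring.choose x k * (x - k) / ((k : ℝ) + 1) := by
  rw [← choose_succ_mul]; field_simp

lemma contDiff_choose (k : ℕ) (n : WithTop ℕ∞) : ContDiff ℝ n (fun x : ℝ => Ring.choose x k) := by
  induction k with
  | zero => simp only [Ring.choose_zero_right]; exact contDiff_const
  | succ k ih =>
    simp only [choose_succ']
    exact (ih.mul (contDiff_id.sub contDiff_const)).div_const _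

lemma contDiff_co (k : ℕ) (n : WithTop ℕ∞) :
    ContDiff ℝ n (fun c : Fin (r + 1) → ℝ => co c k) := by
  by_cases h : k < r + 1
  · simp only [co_of_lt _ k h]
    exact contDiff_apply ℝ ℝ _
  · simp only [co_of_ge _ k (Nat.not_lt.mp h)]
    exact contDiff_const

lemma contDiff_shift (n : WithTop ℕ∞) :
    ContDiff ℝ n (fun p : ℝ × (Fin (r + 1) → ℝ) => shift p.1 p.2) := by
  rw [contDiff_pi]
  intro j
  simp only [shift]
  apply ContDiff.sum
  intro i _
  exact ((contDiff_choose i n).comp contDiff_fst).mul ((contDiff_co _ n).comp contDiff_snd)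

lemma contDiff_mulE (n : WithTop ℕ∞) :
    ContDiff ℝ n (fun p : (ℝ × (Fin (r + 1) → ℝ)) × (ℝ × (Fin (r + 1) → ℝ)) =>
      (p.1.1 + p.2.1, shift p.2.1 p.1.2 + p.2.2)) := by
  apply ContDiff.prodMk
  · exact (contDiff_fst.comp contDiff_fst).add (contDiff_fst.comp contDiff_snd)
  · apply ContDiff.add
    · exact (contDiff_shift n).comp
        ((contDiff_fst.comp contDiff_snd).prodMk (contDiff_snd.comp contDiff_fst))
    · exact contDiff_snd.comp contDiff_snd

lemma contDiff_invE (n : WithTop ℕ∞) :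
    ContDiff ℝ n (fun p : ℝ × (Fin (r + 1) → ℝ) => (-p.1, -shift (-p.1) p.2)) := by
  apply ContDiff.prodMk
  · exact contDiff_fst.neg
  · exact ((contDiff_shift n).comp (contDiff_fst.neg.prodMk contDiff_snd)).neg

lemma contMDiff_mulE (n : WithTop ℕ∞) :
    ContMDiff (𝓘(ℝ, ℝ × (Fin (r + 1) → ℝ)).prod 𝓘(ℝ, ℝ × (Fin (r + 1) → ℝ)))
      𝓘(ℝ, ℝ × (Fin (r + 1) → ℝ)) n
      (fun p : (ℝ × (Fin (r + 1) → ℝ)) × (ℝ × (Fin (r + 1) → ℝ)) =>
      (p.1.1 + p.2.1, shift p.2.1 p.1.2 + p.2.2)) := by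
  rw [← modelWithCornersSelf_prod, chartedSpaceSelf_prod]
  exact (contDiff_mulE n).contMDiff

instance instLie (n : WithTop ℕ∞) :
    LieGroup 𝓘(ℝ, ℝ × (Fin (r + 1) → ℝ)) n (NilG r) where
  toIsManifold := inferInstanceAs (IsManifold 𝓘(ℝ, ℝ × (Fin (r + 1) → ℝ)) n
    (ℝ × (Fin (r + 1) → ℝ)))
  contMDiff_mul := contMDiff_mulE (r := r) n
  contMDiff_inv := (contDiff_invE (r := r) n).contMDiff

instance instTG : IsTopologicalGroup (NilG r) :=
  topologicalGroup_of_lieGroup 𝓘(ℝ, ℝ × (Fin (r + 1) → ℝ)) 0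

instance : ContractibleSpace (NilG r) :=
  inferInstanceAs (ContractibleSpace (ℝ × (Fin (r + 1) → ℝ)))

instance instSC : SimplyConnectedSpace (NilG r) := inferInstance

/-- the descending central series -/
noncomputable def cent (r : ℕ) : ℕ → Subgroup (NilG r)
  | 0 => ⊤
  | n + 1 =>
    { carrier := {x | fs x = 0 ∧ ∀ k, r + 1 ≤ k + n → co (sn x) k = 0}
      mul_mem' := by
        rintro x y ⟨hx1, hx2⟩ ⟨hy1, hy2⟩
        refine ⟨by simp [hx1, hy1], ?_⟩
        intro k hk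
        rw [sn_mul, hy1, shift_zero, co_add, hx2 k hk, hy2 k hk, add_zero]
      one_mem' := ⟨by simp, fun k _ => by simp [co_zero]⟩
      inv_mem' := by
        rintro x ⟨hx1, hx2⟩
        refine ⟨by simp [hx1], ?_⟩
        intro k hk
        rw [sn_inv, hx1, neg_zero, shift_zero, co_neg, hx2 k hk, neg_zero] }

lemma mem_cent_succ (n : ℕ) (x : NilG r) :
    x ∈ cent r (n + 1) ↔ fs x = 0 ∧ ∀ k, r + 1 ≤ k + n → co (sn x) k = 0 := Iff.rfl

instance instNil : Group.IsNilpotent (NilG r) := by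
  rw [Subgroup.nilpotent_iff_finite_descending_central_series]
  refine ⟨r + 2, cent r, ⟨rfl, ?_⟩, ?_⟩
  · intro x n hx g
    rw [mem_cent_succ, commutatorElement_def]
    refine ⟨by simp, ?_⟩
    intro k hk
    cases n with
    | zero => exact co_of_ge _ _ (by omega)
    | succ n =>
      rw [mem_cent_succ] at hx
      obtain ⟨hx1, hx2⟩ := hx
      have e : sn (x * g * x⁻¹ * g⁻¹) = sn x + - shift (-fs g) (sn x) := by
        simp only [sn_mul, sn_inv, fs_inv, hx1, neg_zero, shift_zero]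
        rw [shift_add_right, shift_add_right, shift_shift, neg_add_cancel, shift_zero,
          shift_neg_right]
        abel
      rw [e, co_add, co_neg, co_shift, sum_range_succ']
      rw [sum_eq_zero]
      · simp
      · intro i _
        rw [hx2 _ (by omega), mul_zero]
  · rw [eq_bot_iff]
    intro x hx
    rw [mem_cent_succ] at hx
    rw [Subgroup.mem_bot]
    apply ext'
    · rw [hx.1]; rfl
    · apply co_ext; intro k
      rw [hx.2 k (by omega)]; simp [co_zero]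

/-- coordinates of elements of the lattice -/
lemma mem_Gam (x : NilG r) :
    x ∈ Gam r ↔ (∃ m : ℤ, fs x = m) ∧ ∀ k, ∃ z : ℤ, co (sn x) k = z := Iff.rfl

instance instDisc : DiscreteTopology (Gam r) := by
  apply DiscreteTopology.of_forall_le_dist (r := 1) one_pos
  intro x y hxy
  by_contra hlt
  push Not at hlt
  apply hxy
  obtain ⟨⟨m, hm⟩, hx⟩ := (mem_Gam _).mp x.2
  obtain ⟨⟨m', hm'⟩, hy⟩ := (mem_Gam _).mp y.2
  have hd : dist (x : NilG r) (y : NilG r) < 1 := hlt
  have hd' : max (dist (fs (x : NilG r)) (fs (y : NilG r)))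
      (dist (sn (x : NilG r)) (sn (y : NilG r))) < 1 := hd
  rw [max_lt_iff] at hd'
  apply Subtype.ext
  apply ext'
  · have h1 := hd'.1
    rw [hm, hm', Real.dist_eq] at h1
    rw [hm, hm']
    have h2 : |m - m'| < 1 := by exact_mod_cast h1
    rw [Int.abs_lt_one_iff] at h2
    have : m = m' := by omega
    rw [this]
  · funext j
    have h1 := (dist_le_pi_dist (sn (x : NilG r)) (sn (y : NilG r)) j).trans_lt hd'.2
    obtain ⟨z, hz⟩ := hx j
    obtain ⟨z', hz'⟩ := hy j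
    rw [co_fin] at hz hz'
    rw [hz, hz', Real.dist_eq] at h1
    rw [hz, hz']
    have h2 : |z - z'| < 1 := by exact_mod_cast h1
    rw [Int.abs_lt_one_iff] at h2
    have : z = z' := by omega
    rw [this]

lemma exists_rep (x : NilG r) : ∃ y : NilG r, (QuotientGroup.mk y : NilG r ⧸ Gam r) = QuotientGroup.mk x ∧
    (0 ≤ fs y ∧ fs y ≤ 1) ∧ ∀ j, 0 ≤ sn y j ∧ sn y j ≤ 1 := by
  set c := shift (-(⌊fs x⌋ : ℝ)) (sn x) with hc
  refine ⟨x * mk (-(⌊fs x⌋ : ℝ)) (fun j => -(⌊c j⌋ : ℝ)), ?_, ?_, ?_⟩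
  · rw [QuotientGroup.eq]
    have : (x * mk (-(⌊fs x⌋ : ℝ)) (fun j => -(⌊c j⌋ : ℝ)))⁻¹ * x
        = (mk (-(⌊fs x⌋ : ℝ)) (fun j => -(⌊c j⌋ : ℝ)))⁻¹ := by group
    rw [this]
    apply (Gam r).inv_mem
    refine ⟨⟨-⌊fs x⌋, by simp⟩, ?_⟩
    intro k
    by_cases h : k < r + 1
    · exact ⟨-⌊c ⟨k, h⟩⌋, by rw [sn_mk, co_of_lt _ _ h]; push_cast; rfl⟩
    · exact ⟨0, by rw [co_of_ge _ _ (Nat.not_lt.mp h)]; simp⟩
  · rw [fs_mul, fs_mk]
    have h1 := Int.floor_le (fs x)
    have h2 := Int.lt_floor_add_one (fs x)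
    constructor <;> linarith
  · intro j
    rw [sn_mul, fs_mk, sn_mk, ← hc]
    have h1 := Int.floor_le (c j)
    have h2 := Int.lt_floor_add_one (c j)
    simp only [Pi.add_apply]
    constructor <;> linarith

instance instComp : CompactSpace (NilG r ⧸ Gam r) := by
  rw [← isCompact_univ_iff]
  have hK : IsCompact ((Set.Icc (0 : ℝ) 1) ×ˢ (Set.univ.pi fun _ : Fin (r + 1) => Set.Icc (0 : ℝ) 1)) :=
    isCompact_Icc.prod (isCompact_univ_pi fun _ => isCompact_Icc)
  have hK' : IsCompact ((fun y : NilG r => (QuotientGroup.mk y : NilG r ⧸ Gam r)) ''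
      ((Set.Icc (0 : ℝ) 1) ×ˢ (Set.univ.pi fun _ : Fin (r + 1) => Set.Icc (0 : ℝ) 1) :
        Set (ℝ × (Fin (r + 1) → ℝ)))) :=
    IsCompact.image (X := NilG r) hK continuous_quot_mk
  convert hK'
  symm
  rw [Set.eq_univ_iff_forall]
  intro q
  induction q using QuotientGroup.induction_on with
  | H x =>
    obtain ⟨y, hy, h1, h2⟩ := exists_rep x
    exact ⟨y, ⟨h1, fun j _ => h2 j⟩, hy⟩

end NilG

end Pool.Agent.Lib.MP_663568_nt
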