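import Mathlib
import Pool.Agent.Lib.MP_663568_nt.Lie
import Pool.Agent.Lib.MP_663568_nt.Poly
import Pool.Agent.Lib.MP_663568_nt.Fourier

set_option autoImplicit false
open Finset Polynomial

namespace Pool.Agent.Lib.MP_663568_nt

namespace NilG

variable {r : ℕ}

/-! ### binomial polynomials at `-x` -/

/-- polynomial with value `binom(-x, k)` -/
noncomputable def bN : ℕ → ℝ[X]
  | 0 => 1
  | k + 1 => C (1 / ((k : ℝ) + 1)) * bN k * (-X - C (k : ℝ))

lemma bN_eval (k : ℕ) (x : ℝ) : (bN k).eval x = Ring.choose (-x) k := by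
  induction k with
  | zero => simp [bN]
  | succ k ih =>
    rw [bN, choose_succ', eval_mul, eval_mul, ih]
    simp
    ring

lemma bN_natDegree (k : ℕ) : (bN k).natDegree ≤ k := by
  induction k with
  | zero => simp [bN]
  | succ k ih =>
    rw [bN]
    refine natDegree_mul_le.trans ?_
    have h1 : (C (1 / ((k : ℝ) + 1)) * bN k).natDegree ≤ k := (natDegree_C_mul_le _ _).trans ih
    have h2 : (-X - C (k : ℝ) : ℝ[X]).natDegree ≤ 1 := by
      refine (natDegree_sub_le _ _).trans ?_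
      simp [natDegree_neg]
    omega

lemma bN_coeff (k : ℕ) : (bN k).coeff k = (-1) ^ k / (k.factorial : ℝ) := by
  induction k with
  | zero => simp [bN]
  | succ k ih =>
    have e : bN (k + 1) = C (-(1 / ((k : ℝ) + 1))) * (bN k * X)
        + C (-(1 / ((k : ℝ) + 1)) * k) * bN k := by
      rw [bN, C_mul, C_neg]; ring
    rw [e, coeff_add, coeff_C_mul, coeff_mul_X, coeff_C_mul, ih,
      coeff_eq_zero_of_natDegree_lt (Nat.lt_succ_of_le (bN_natDegree k)), Nat.factorial_succ]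
    push_cast
    have : (k.factorial : ℝ) ≠ 0 := by positivity
    field_simp
    ring

/-! ### orbits -/

/-- `z_n`, with coordinates `- ∑ binom(-n, l+1) v_{k+l}` -/
noncomputable def zz (n : ℕ) (v : Fin (r + 1) → ℝ) : Fin (r + 1) → ℝ :=
  fun k => - ∑ l ∈ range (r + 1), Ring.choose (-(n : ℝ)) (l + 1) * co v (k + l)

lemma co_zz (n : ℕ) (v : Fin (r + 1) → ℝ) (k : ℕ) :
    co (zz n v) k = - ∑ l ∈ range (r + 1), Ring.choose (-(n : ℝ)) (l + 1) * co v (k + l) := by
  by_cases h : k < r + 1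
  · rw [co_of_lt _ _ h]; rfl
  · rw [co_of_ge _ _ (by omega), sum_eq_zero, neg_zero]
    intro i _
    rw [co_of_ge _ _ (by omega), mul_zero]

lemma zz_succ (n : ℕ) (v : Fin (r + 1) → ℝ) :
    zz (n + 1) v = zz n v + shift (-((n : ℝ) + 1)) v := by
  apply co_ext; intro k
  rw [co_add, co_zz, co_zz, co_shift, ← sub_eq_zero]
  rw [show ∀ a b c : ℝ, -a - (-b + c) = b - (c + a) from fun a b c => by ring, sub_eq_zero,
    ← sum_add_distrib]
  apply sum_congr rfl; intro l _
  have h := Ring.choose_succ_succ (-((n : ℝ) + 1)) l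
  rw [show -((n : ℝ) + 1) + 1 = -(n : ℝ) by ring] at h
  rw [h]; push_cast; ring

lemma pow_mk_one (v : Fin (r + 1) → ℝ) (n : ℕ) :
    fs ((mk 1 v : NilG r) ^ n) = n ∧ sn ((mk 1 v : NilG r) ^ n) = shift (n : ℝ) (zz n v) := by
  induction n with
  | zero =>
    refine ⟨by simp, ?_⟩
    rw [pow_zero, sn_one]
    apply co_ext; intro k
    rw [co_zero, co_shift]
    rw [sum_eq_zero]
    intro i _
    rw [co_zz, sum_eq_zero]
    · simp
    · intro l _; simp
  | succ n ih =>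
    rw [pow_succ]
    refine ⟨by rw [fs_mul, ih.1]; simp, ?_⟩
    rw [sn_mul, ih.2, zz_succ, shift_add_right, shift_shift, shift_shift]
    simp only [fs_mk, sn_mk]
    push_cast
    rw [add_comm 1 (n : ℝ), add_neg_cancel, shift_zero]

lemma mk_mem_Gam (n : ℕ) : (mk (-(n : ℝ)) 0 : NilG r) ∈ Gam r :=
  ⟨⟨-n, by simp⟩, fun k => ⟨0, by simp [co_zero]⟩⟩

lemma orbit (v : Fin (r + 1) → ℝ) (x₀ : NilG r) (n : ℕ) :
    (QuotientGroup.mk ((mk 1 v : NilG r) ^ n * x₀) : NilG r ⧸ Gam r)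
      = QuotientGroup.mk (mk (fs x₀) (shift (fs x₀) (zz n v) + shift (-(n : ℝ)) (sn x₀))) := by
  rw [QuotientGroup.eq]
  have e : ((mk 1 v : NilG r) ^ n * x₀)⁻¹ *
      mk (fs x₀) (shift (fs x₀) (zz n v) + shift (-(n : ℝ)) (sn x₀)) = mk (-(n : ℝ)) 0 := by
    rw [inv_mul_eq_iff_eq_mul]
    obtain ⟨h1, h2⟩ := pow_mk_one v n
    apply ext'
    · simp only [fs_mk, fs_mul, h1]; ring
    · simp only [sn_mk, sn_mul, fs_mk, h2]
      rw [shift_add_right, shift_shift, shift_shift, add_zero]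
      congr 2
      ring
  rw [e]
  exact mk_mem_Gam n

/-- translation by the integer lattice of the fibre -/
lemma mk_add_int (s : ℝ) (c : Fin (r + 1) → ℝ) (z : Fin (r + 1) → ℤ) :
    (QuotientGroup.mk (mk s (c + fun i => (z i : ℝ)) : NilG r) : NilG r ⧸ Gam r)
      = QuotientGroup.mk (mk s c) := by
  symm
  rw [QuotientGroup.eq]
  have e : (mk s c : NilG r)⁻¹ * mk s (c + fun i => (z i : ℝ)) = mk 0 (fun i => (z i : ℝ)) := by
    rw [inv_mul_eq_iff_eq_mul]
    apply ext'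
    · simp
    · simp [shift_zero]
  rw [e]
  refine ⟨⟨0, by simp⟩, ?_⟩
  intro k
  by_cases h : k < r + 1
  · exact ⟨z ⟨k, h⟩, by rw [sn_mk, co_of_lt _ _ h]⟩
  · exact ⟨0, by rw [co_of_ge _ _ (Nat.not_lt.mp h)]; simp⟩

/-! ### the polynomial of a frequency -/

noncomputable def AA (κ : Fin (r + 1) → ℤ) (s : ℝ) (v : Fin (r + 1) → ℝ) (l : ℕ) : ℝ :=
  ∑ k : Fin (r + 1), (κ k : ℝ) * ∑ i ∈ range (r + 1), Ring.choose s i * co v (k + i + l)

noncomputable def B2 (κ : Fin (r + 1) → ℤ) (w : Fin (r + 1) → ℝ) (l : ℕ) : ℝ :=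
  ∑ k : Fin (r + 1), (κ k : ℝ) * co w (k + l)

noncomputable def pol (κ : Fin (r + 1) → ℤ) (s : ℝ) (v w : Fin (r + 1) → ℝ) : ℝ[X] :=
  - ∑ l ∈ range (r + 1), C (AA κ s v l) * bN (l + 1)
    + ∑ l ∈ range (r + 1), C (B2 κ w l) * bN l

lemma pol_eval (κ : Fin (r + 1) → ℤ) (s : ℝ) (v w : Fin (r + 1) → ℝ) (n : ℕ) :
    (pol κ s v w).eval (n : ℝ)
      = ∑ k : Fin (r + 1), (κ k : ℝ) * (shift s (zz n v) + shift (-(n : ℝ)) w) k := by
  have h1 : ∀ k : Fin (r + 1), shift s (zz n v) k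
      = - ∑ l ∈ range (r + 1), Ring.choose (-(n : ℝ)) (l + 1) *
        ∑ i ∈ range (r + 1), Ring.choose s i * co v (k + i + l) := by
    intro k
    rw [shift]
    simp only [co_zz, mul_neg, sum_neg_distrib, mul_sum]
    rw [sum_comm]
    congr 1
    apply sum_congr rfl; intro l _
    apply sum_congr rfl; intro i _
    ring
  have h2 : ∀ k : Fin (r + 1), shift (-(n : ℝ)) w k
      = ∑ i ∈ range (r + 1), Ring.choose (-(n : ℝ)) i * co w (k + i) := fun k => rfl
  simp only [pol, eval_add, eval_neg, eval_finsetSum, eval_mul, eval_C, bN_eval, Pi.add_apply, h1,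
    h2, AA, B2]
  simp only [mul_add, sum_add_distrib, mul_neg, sum_neg_distrib]
  congr 1
  · congr 1
    simp only [sum_mul, mul_sum]
    rw [sum_comm]
    apply sum_congr rfl; intro k _
    apply sum_congr rfl; intro l _
    apply sum_congr rfl; intro i _
    ring
  · simp only [sum_mul, mul_sum]
    rw [sum_comm]
    apply sum_congr rfl; intro k _
    apply sum_congr rfl; intro l _
    ring

section degree

variable (κ : Fin (r + 1) → ℤ) (j₀ : Fin (r + 1)) (hmin : ∀ k < j₀, κ k = 0)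

include hmin

lemma AA_zero (s : ℝ) (v : Fin (r + 1) → ℝ) (l : ℕ) (hl : r + 1 - j₀ ≤ l) : AA κ s v l = 0 := by
  rw [AA]
  apply sum_eq_zero; intro k _
  by_cases h : k < j₀
  · rw [hmin k h]; simp
  · rw [sum_eq_zero, mul_zero]
    intro i _
    have h' : (j₀ : ℕ) ≤ k := by rw [not_lt] at h; exact h
    rw [co_of_ge _ _ (by omega), mul_zero]

lemma B2_zero (w : Fin (r + 1) → ℝ) (l : ℕ) (hl : r + 1 - j₀ ≤ l) : B2 κ w l = 0 := by
  rw [B2]
  apply sum_eq_zero; intro k _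
  by_cases h : k < j₀
  · rw [hmin k h]; simp
  · have h' : (j₀ : ℕ) ≤ k := by rw [not_lt] at h; exact h
    rw [co_of_ge _ _ (by omega), mul_zero]

lemma AA_top (s : ℝ) (v : Fin (r + 1) → ℝ) :
    AA κ s v (r - j₀) = κ j₀ * v (Fin.last r) := by
  have hj := j₀.2
  rw [AA, sum_eq_single j₀]
  · congr 1
    rw [sum_eq_single 0]
    · rw [Ring.choose_zero_right, one_mul, add_zero]
      have : (j₀ : ℕ) + (r - j₀) = r := by omega
      rw [this, co_of_lt _ _ (Nat.lt_succ_self r)]; rfl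
    · intro i _ hi
      rw [co_of_ge _ _ (by omega), mul_zero]
    · intro h; exact absurd (mem_range.mpr (Nat.succ_pos r)) h
  · intro k _ hk
    by_cases h : k < j₀
    · rw [hmin k h]; simp
    · have h' : (j₀ : ℕ) < k := by
        rw [not_lt] at h
        exact lt_of_le_of_ne h (fun e => hk (Fin.ext e.symm))
      rw [sum_eq_zero, mul_zero]
      intro i _
      rw [co_of_ge _ _ (by omega), mul_zero]
  · intro h; exact absurd (mem_univ _) h

lemma pol_natDegree (s : ℝ) (v w : Fin (r + 1) → ℝ) :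
    (pol κ s v w).natDegree ≤ r + 1 - j₀ := by
  rw [pol]
  refine (natDegree_add_le _ _).trans (max_le ?_ ?_)
  · rw [natDegree_neg]
    apply natDegree_sum_le_of_forall_le
    intro l _
    by_cases h : r + 1 - j₀ ≤ l
    · rw [AA_zero κ j₀ hmin s v l h]; simp
    · refine (natDegree_C_mul_le _ _).trans ((bN_natDegree _).trans (by omega))
  · apply natDegree_sum_le_of_forall_le
    intro l _
    by_cases h : r + 1 - j₀ ≤ l
    · rw [B2_zero κ j₀ hmin w l h]; simp
    · refine (natDegree_C_mul_le _ _).trans ((bN_natDegree _).trans (by omega))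

lemma pol_coeff (s : ℝ) (v w : Fin (r + 1) → ℝ) :
    (pol κ s v w).coeff (r + 1 - j₀)
      = (-((-1) ^ (r + 1 - (j₀ : ℕ)) / ((r + 1 - (j₀ : ℕ)).factorial : ℝ)) * κ j₀)
        * v (Fin.last r) := by
  have hj := j₀.2
  rw [pol, coeff_add, coeff_neg, finsetSum_coeff, finsetSum_coeff]
  have h2 : ∑ l ∈ range (r + 1), (C (B2 κ w l) * bN l).coeff (r + 1 - j₀) = 0 := by
    apply sum_eq_zero; intro l _
    rw [coeff_C_mul]
    by_cases h : r + 1 - j₀ ≤ l
    · rw [B2_zero κ j₀ hmin w l h, zero_mul]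
    · rw [coeff_eq_zero_of_natDegree_lt ((bN_natDegree l).trans_lt (by omega)), mul_zero]
  have h1 : ∑ l ∈ range (r + 1), (C (AA κ s v l) * bN (l + 1)).coeff (r + 1 - j₀)
      = κ j₀ * v (Fin.last r) * ((-1) ^ (r + 1 - (j₀ : ℕ)) / ((r + 1 - (j₀ : ℕ)).factorial : ℝ)) := by
    rw [sum_eq_single (r - (j₀ : ℕ))]
    · rw [coeff_C_mul, AA_top κ j₀ hmin]
      have : r + 1 - (j₀ : ℕ) = (r - j₀) + 1 := by omega
      rw [this, bN_coeff]
    · intro l _ hl
      rw [coeff_C_mul]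
      by_cases h : r + 1 - j₀ ≤ l
      · rw [AA_zero κ j₀ hmin s v l h, zero_mul]
      · rw [coeff_eq_zero_of_natDegree_lt ((bN_natDegree (l + 1)).trans_lt (by omega)), mul_zero]
    · intro h; exact absurd (mem_range.mpr (by omega)) h
  rw [h1, h2]; ring

end degree

end NilG

end Pool.Agent.Lib.MP_663568_nt
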