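import Mathlib
import Pool.Agent.Lib.MP_663568_nt.Orbit

set_option autoImplicit false
open Finset Polynomial

namespace Pool.Agent.Lib.MP_663568_nt

open NilG Katai

/-- the Möbius function as a complex sequence -/
noncomputable def muC (n : ℕ) : ℂ := ((ArithmeticFunction.moebius n : ℤ) : ℂ)

lemma norm_muC (n : ℕ) : ‖muC n‖ ≤ 1 := by
  rw [muC, Complex.norm_intCast]
  have := ArithmeticFunction.abs_moebius_le_one (n := n)
  exact_mod_cast this

lemma muC_mul (p : ℕ) (hp : p.Prime) (m : ℕ) (h : ¬ p ∣ m) : muC (p * m) = muC p * muC m := by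
  rw [muC, muC, muC, ArithmeticFunction.isMultiplicative_moebius.map_mul_of_coprime
    ((Nat.Prime.coprime_iff_not_dvd hp).mpr h)]
  push_cast; rfl

/-- for a nonzero frequency there is a phase representation -/
lemma exists_phase (r : ℕ) (K : Set ℝ) (κ : Fin (r + 1) → ℤ) (hκ : κ ≠ 0) :
    ∃ d ∈ Icc 1 (r + 1), ∃ ρ : ℚ, ρ ≠ 0 ∧ ∀ (s : ℝ) (v w : Fin (r + 1) → ℝ) (δ α : ℝ), α ∈ K →
      |v (Fin.last r) - α| < δ →
      ∃ i : NearPoly d ((fun x : ℝ => (ρ : ℝ) * x) '' K) (|(ρ : ℝ)| * δ), ∀ n : ℕ,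
        phase d ((fun x : ℝ => (ρ : ℝ) * x) '' K) (|(ρ : ℝ)| * δ) i n
          = ee (∑ k : Fin (r + 1), (κ k : ℝ) *
            (shift s (zz n v) + shift (-(n : ℝ)) w) k) := by
  classical
  have hne : (univ.filter (fun k : Fin (r + 1) => κ k ≠ 0)).Nonempty := by
    by_contra h
    rw [Finset.not_nonempty_iff_eq_empty] at h
    apply hκ
    funext k
    by_contra hk
    have : k ∈ univ.filter (fun k : Fin (r + 1) => κ k ≠ 0) := by simp; exact hk
    rw [h] at this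
    exact absurd this (Finset.notMem_empty _)
  set j₀ := (univ.filter (fun k : Fin (r + 1) => κ k ≠ 0)).min' hne with hj₀
  have hj₀κ : κ j₀ ≠ 0 := by
    have := Finset.min'_mem _ hne
    simpa using this
  have hmin : ∀ k < j₀, κ k = 0 := by
    intro k hk
    by_contra h
    have h1 : j₀ ≤ k := Finset.min'_le _ k (by simpa using h)
    exact absurd hk (not_lt.mpr h1)
  have hj := j₀.2
  set ρ : ℚ := -((-1) ^ (r + 1 - (j₀ : ℕ)) / ((r + 1 - (j₀ : ℕ)).factorial : ℚ)) * κ j₀ with hρ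
  have hρ0 : ρ ≠ 0 := by
    rw [hρ]
    apply mul_ne_zero
    · rw [neg_ne_zero]
      apply div_ne_zero
      · exact pow_ne_zero _ (by norm_num)
      · exact_mod_cast Nat.factorial_ne_zero _
    · exact_mod_cast hj₀κ
  refine ⟨r + 1 - j₀, by rw [mem_Icc]; omega, ρ, hρ0, ?_⟩
  intro s v w δ α hα hv
  have hcoeff := pol_coeff κ j₀ hmin s v w
  have hρr : (ρ : ℝ) = -((-1) ^ (r + 1 - (j₀ : ℕ)) / ((r + 1 - (j₀ : ℕ)).factorial : ℝ)) * κ j₀ := by
    rw [hρ]; push_cast; rfl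
  rw [← hρr] at hcoeff
  refine ⟨⟨pol κ s v w, pol_natDegree κ j₀ hmin s v w, ρ * α, ⟨α, hα, rfl⟩, ?_⟩, ?_⟩
  · rw [hcoeff, ← mul_sub, abs_mul]
    exact mul_lt_mul_of_pos_left hv (abs_pos.mpr (by exact_mod_cast hρ0))
  · intro n
    simp only [phase]
    rw [pol_eval]

theorem restricted (r : ℕ) (K : Set ℝ) (hK : IsCompact K) (PP : Set ℕ)
    (hPP : ∀ p ∈ PP, p.Prime)
    (hdiv : ¬ Summable (PP.indicator (fun p : ℕ => (1 : ℝ) / p)))
    (hindep : ∀ d ∈ Icc 1 (r + 1), ∀ p ∈ PP, ∀ q ∈ PP, p ≠ q → ∀ α ∈ K, ∀ β ∈ K,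
      Irrational ((p : ℝ) ^ d * α - (q : ℝ) ^ d * β))
    (f : NilG r ⧸ Gam r → ℂ) (hf : Continuous f) (x₀ : NilG r)
    (hmean : ∫ c in {c : Fin (r + 1) → ℝ | ∀ i, c i ∈ Set.Ioc (0 : ℝ) 1},
      f (QuotientGroup.mk (NilG.mk (fs x₀) c)) = 0)
    (ε : ℝ) (hε : 0 < ε) :
    ∃ δ : ℝ, 0 < δ ∧ ∃ H₀ : ℕ, ∀ N H : ℕ, H₀ ≤ H → H ≤ N →
      ∑ n ∈ Icc 1 N, (1 / (n : ℝ)) *
        ⨆ g : TopNear r K δ,
          ‖∑ h ∈ Icc 1 H, f (QuotientGroup.mk ((g : NilG r) ^ (h + n) * x₀)) *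
            ((ArithmeticFunction.moebius (n + h) : ℤ) : ℂ)‖
      ≤ ε * H * Real.log N := by
  classical
  set Fc : (Fin (r + 1) → ℝ) → ℂ := fun c => f (QuotientGroup.mk (NilG.mk (fs x₀) c)) with hFc
  have hFc_cont : Continuous Fc := by
    apply hf.comp
    apply continuous_quot_mk.comp
    exact (Continuous.prodMk continuous_const continuous_id :
      Continuous (fun c : Fin (r + 1) → ℝ => ((fs x₀, c) : ℝ × (Fin (r + 1) → ℝ))))
  have hFc_per : ∀ (c : Fin (r + 1) → ℝ) (z : Fin (r + 1) → ℤ),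
      Fc (c + fun i => (z i : ℝ)) = Fc c := by
    intro c z
    simp only [hFc]
    rw [mk_add_int]
  obtain ⟨S, a, hS0, hSa⟩ := periodic_approx Fc hFc_cont hFc_per hmean (ε / 4) (by positivity)
  set M : ℝ := ∑ κ ∈ S, ‖a κ‖ with hM
  have hM0 : 0 ≤ M := sum_nonneg (fun _ _ => norm_nonneg _)
  -- data for each frequency
  have hdata : ∀ κ ∈ S, ∃ (δ : ℝ) (H₀ : ℕ), 0 < δ ∧ ∃ (ι : Type) (F : ι → ℕ → ℂ),
      (∀ i n, ‖F i n‖ ≤ 1) ∧
      (∀ N H : ℕ, H₀ ≤ H → H ≤ N → ∑ n ∈ Icc 1 N, (1 / (n : ℝ)) * GG F muC H n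
        ≤ ε / (2 * (M + 1)) * H * Real.log N) ∧
      ∀ (s : ℝ) (v w : Fin (r + 1) → ℝ) (α : ℝ), α ∈ K → |v (Fin.last r) - α| < δ →
        ∃ i, ∀ n, F i n = ee (∑ k : Fin (r + 1), (κ k : ℝ) *
            (shift s (zz n v) + shift (-(n : ℝ)) w) k) := by
    intro κ hκ
    have hκ0 : κ ≠ 0 := fun h => hS0 (h ▸ hκ)
    obtain ⟨d, hd, ρ, hρ, hph⟩ := exists_phase r K κ hκ0
    have hρr : (ρ : ℝ) ≠ 0 := by exact_mod_cast hρ
    rw [mem_Icc] at hd
    obtain ⟨δ, hδ, H₀, hH₀⟩ := near_poly d (by omega) ((fun x : ℝ => (ρ : ℝ) * x) '' K)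
      (hK.image (by fun_prop)) PP hPP hdiv (by
        rintro p hp q hq hpq _ ⟨α, hα, rfl⟩ _ ⟨β, hβ, rfl⟩
        have h1 := hindep d (mem_Icc.mpr hd) p hp q hq hpq α hα β hβ
        have h2 : (p : ℝ) ^ d * ((ρ : ℝ) * α) - (q : ℝ) ^ d * ((ρ : ℝ) * β)
            = (ρ : ℝ) * ((p : ℝ) ^ d * α - (q : ℝ) ^ d * β) := by ring
        simp only [h2]
        exact h1.ratCast_mul hρ)
      muC norm_muC (fun p hp m hm => muC_mul p (hPP p hp) m hm) (ε / (2 * (M + 1))) (by positivity)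
    refine ⟨δ / |(ρ : ℝ)|, H₀, by positivity, _,
      phase d ((fun x : ℝ => (ρ : ℝ) * x) '' K) δ, fun _ _ => (norm_ee _).le, hH₀, ?_⟩
    intro s v w α hα hv
    have := hph s v w (δ / |(ρ : ℝ)|) α hα hv
    rwa [mul_div_cancel₀ _ (abs_ne_zero.mpr hρr)] at this
  choose! δ H₀ hδ ι F hF1 hF2 hF3 using hdata
  obtain ⟨δ₀, hδ₀, hδ₀'⟩ : ∃ δ₀ : ℝ, 0 < δ₀ ∧ ∀ κ ∈ S, δ₀ ≤ δ κ := by
    by_cases hSne : S.Nonempty
    · refine ⟨S.inf' hSne δ, ?_, fun κ hκ => Finset.inf'_le _ hκ⟩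
      rw [Finset.lt_inf'_iff]
      exact hδ
    · rw [Finset.not_nonempty_iff_eq_empty] at hSne
      exact ⟨1, one_pos, by simp [hSne]⟩
  refine ⟨δ₀, hδ₀, 3 + ∑ κ ∈ S, H₀ κ, ?_⟩
  intro N H hH hHN
  have hN3 : 3 ≤ N := by omega
  have hH₀κ : ∀ κ ∈ S, H₀ κ ≤ H := by
    intro κ hκ
    have := single_le_sum (f := H₀) (fun _ _ => Nat.zero_le _) hκ
    omega
  -- pointwise bound
  have hpt : ∀ n : ℕ, (⨆ g : TopNear r K δ₀,
          ‖∑ h ∈ Icc 1 H, f (QuotientGroup.mk ((g : NilG r) ^ (h + n) * x₀)) *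
            ((ArithmeticFunction.moebius (n + h) : ℤ) : ℂ)‖)
      ≤ ∑ κ ∈ S, ‖a κ‖ * GG (F κ) muC H n + ε / 4 * H := by
    intro n
    apply Real.iSup_le
    · rintro ⟨g, hg1, α, hα, hgα⟩
      have hg : g = NilG.mk 1 (sn g) := ext' _ _ (by rw [fs_mk, hg1]) (by rw [sn_mk])
      set v := sn g with hv
      have hval : ∀ m : ℕ, f (QuotientGroup.mk (g ^ m * x₀))
          = Fc (shift (fs x₀) (zz m v) + shift (-(m : ℝ)) (sn x₀)) := by
        intro m
        rw [hg, orbit]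
      set y : ℕ → (Fin (r + 1) → ℝ) := fun m => shift (fs x₀) (zz m v) + shift (-(m : ℝ)) (sn x₀)
        with hy
      have hex : ∀ κ ∈ S, ∃ i : ι κ, ∀ m, F κ i m = ee (∑ k : Fin (r + 1), (κ k : ℝ) * y m k) := by
        intro κ hκ
        exact hF3 κ hκ (fs x₀) v (sn x₀) α hα (hgα.trans_le (hδ₀' κ hκ))
      have hsplit : ∑ h ∈ Icc 1 H, f (QuotientGroup.mk (g ^ (h + n) * x₀)) *
            ((ArithmeticFunction.moebius (n + h) : ℤ) : ℂ)
          = ∑ κ ∈ S, a κ * ∑ h ∈ Icc 1 H, ee (∑ k : Fin (r + 1), (κ k : ℝ) * y (n + h) k) *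
              muC (n + h)
            + ∑ h ∈ Icc 1 H, (Fc (y (n + h)) -
              ∑ κ ∈ S, a κ * ee (∑ k : Fin (r + 1), (κ k : ℝ) * y (n + h) k)) * muC (n + h) := by
        have e1 : ∑ κ ∈ S, a κ * ∑ h ∈ Icc 1 H, ee (∑ k : Fin (r + 1), (κ k : ℝ) * y (n + h) k) *
              muC (n + h)
            = ∑ h ∈ Icc 1 H, (∑ κ ∈ S, a κ *
              ee (∑ k : Fin (r + 1), (κ k : ℝ) * y (n + h) k)) * muC (n + h) := by
          simp only [mul_sum, sum_mul]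
          rw [sum_comm]
          apply sum_congr rfl; intro h _
          apply sum_congr rfl; intro κ hκ
          ring
        rw [e1, ← sum_add_distrib]
        apply sum_congr rfl; intro h _
        rw [hval, add_comm h n]
        simp only [hy, muC]
        ring
      change ‖∑ h ∈ Icc 1 H, f (QuotientGroup.mk (g ^ (h + n) * x₀)) *
            ((ArithmeticFunction.moebius (n + h) : ℤ) : ℂ)‖ ≤ _
      rw [hsplit]
      refine (norm_add_le _ _).trans (add_le_add ?_ ?_)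
      · refine (norm_sum_le _ _).trans (sum_le_sum ?_)
        intro κ hκ
        rw [norm_mul]
        apply mul_le_mul_of_nonneg_left _ (norm_nonneg _)
        obtain ⟨i, hi⟩ := hex κ hκ
        have := le_GG (F κ) muC (hF1 κ hκ) norm_muC H n i
        simpa only [hi] using this
      · calc _ ≤ ∑ h ∈ Icc 1 H, ‖(Fc (y (n + h)) -
              ∑ κ ∈ S, a κ * ee (∑ k : Fin (r + 1), (κ k : ℝ) * y (n + h) k)) * muC (n + h)‖ :=
              norm_sum_le _ _
          _ ≤ ∑ h ∈ Icc 1 H, ε / 4 := by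
              apply sum_le_sum; intro h _
              rw [norm_mul]
              calc _ ≤ ε / 4 * 1 := mul_le_mul (hSa _) (norm_muC _) (norm_nonneg _) (by positivity)
                _ = ε / 4 := mul_one _
          _ = ε / 4 * H := by simp; ring
    · apply add_nonneg
      · exact sum_nonneg (fun _ _ => mul_nonneg (norm_nonneg _) (GG_nonneg _ _ _ _))
      · positivity
  have hlogN : 1 ≤ Real.log N := by
    rw [Real.le_log_iff_exp_le (by positivity)]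
    have h1 : Real.exp 1 < 2.7182818286 := Real.exp_one_lt_d9
    have h2 : (3 : ℝ) ≤ N := by exact_mod_cast hN3
    linarith
  have hH0 : (0 : ℝ) ≤ H := by positivity
  calc _ ≤ ∑ n ∈ Icc 1 N, (1 / (n : ℝ)) * (∑ κ ∈ S, ‖a κ‖ * GG (F κ) muC H n + ε / 4 * H) := by
        apply sum_le_sum; intro n _
        exact mul_le_mul_of_nonneg_left (hpt n) (by positivity)
    _ = ∑ κ ∈ S, ‖a κ‖ * ∑ n ∈ Icc 1 N, (1 / (n : ℝ)) * GG (F κ) muC H n
        + (∑ n ∈ Icc 1 N, (1 / (n : ℝ))) * (ε / 4 * H) := by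
        simp only [mul_add, sum_add_distrib]
        congr 1
        · simp only [mul_sum]
          rw [sum_comm]
          apply sum_congr rfl; intro κ _
          apply sum_congr rfl; intro n _
          ring
        · rw [sum_mul]
    _ ≤ ∑ κ ∈ S, ‖a κ‖ * (ε / (2 * (M + 1)) * H * Real.log N)
        + (1 + Real.log N) * (ε / 4 * H) := by
        apply add_le_add
        · apply sum_le_sum; intro κ hκ
          exact mul_le_mul_of_nonneg_left (hF2 κ hκ N H (hH₀κ κ hκ) hHN) (norm_nonneg _)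
        · exact mul_le_mul_of_nonneg_right (sum_inv_le_log N) (by positivity)
    _ = M / (M + 1) * (ε / 2 * H * Real.log N) + (1 + Real.log N) * (ε / 4 * H) := by
        rw [← sum_mul, ← hM]; field_simp
    _ ≤ 1 * (ε / 2 * H * Real.log N) + (Real.log N + Real.log N) * (ε / 4 * H) := by
        apply add_le_add
        · apply mul_le_mul_of_nonneg_right _ (by positivity)
          rw [div_le_one (by positivity)]; linarith
        · apply mul_le_mul_of_nonneg_right _ (by positivity)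
          linarith
    _ = ε * H * Real.log N := by ring

end Pool.Agent.Lib.MP_663568_nt
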