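import Mathlib

set_option autoImplicit false
open Finset

namespace Pool.Agent.Lib.MP_663568_nt

namespace Cantor

/-- exponents `(k+1)!` -/
def ex (k : ℕ) : ℕ := (k + 1).factorial

lemma ex_succ_ge (k : ℕ) : ex k + (k + 1) ≤ ex (k + 1) := by
  rw [ex, ex, Nat.factorial_succ (k + 1)]
  have h : 0 < (k + 1).factorial := Nat.factorial_pos _
  nlinarith

lemma ex_add_ge (k m : ℕ) : ex k + m ≤ ex (k + m) := by
  induction m with
  | zero => simp
  | succ m ih =>
    have := ex_succ_ge (k + m)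
    rw [← add_assoc] 
    have e : k + m + 1 = k + (m + 1) := by ring
    rw [e] at this
    omega

/-- general term -/
noncomputable def tm (c : ℕ → ℤ) (k : ℕ) : ℝ := (c k : ℝ) * ((1 : ℝ) / 10) ^ (ex k)

lemma norm_tm_le (c : ℕ → ℤ) (M : ℕ) (hc : ∀ k, |c k| ≤ M) (n k : ℕ) :
    ‖tm c (n + k)‖ ≤ (M : ℝ) * ((1 : ℝ) / 10) ^ (ex n) * ((1 : ℝ) / 10) ^ k := by
  rw [tm, norm_mul, norm_pow, Real.norm_eq_abs, Real.norm_of_nonneg (by norm_num : (0:ℝ) ≤ 1 / 10),
    mul_assoc, ← pow_add]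
  apply mul_le_mul
  · exact_mod_cast hc (n + k)
  · exact pow_le_pow_of_le_one (by norm_num) (by norm_num) (ex_add_ge n k)
  · positivity
  · positivity

lemma summable_tail (c : ℕ → ℤ) (M : ℕ) (hc : ∀ k, |c k| ≤ M) (n : ℕ) :
    Summable (fun k => tm c (n + k)) := by
  apply Summable.of_norm_bounded _ (norm_tm_le c M hc n)
  exact (summable_geometric_of_lt_one (by norm_num) (by norm_num)).mul_left _

/-- tails -/
noncomputable def tail (c : ℕ → ℤ) (n : ℕ) : ℝ := ∑' k, tm c (n + k)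

lemma norm_tail_le (c : ℕ → ℤ) (M : ℕ) (hc : ∀ k, |c k| ≤ M) (n : ℕ) :
    ‖tail c n‖ ≤ (M : ℝ) * ((1 : ℝ) / 10) ^ (ex n) * (10 / 9) := by
  have h : HasSum (fun k : ℕ => (M : ℝ) * ((1 : ℝ) / 10) ^ (ex n) * ((1 : ℝ) / 10) ^ k)
      ((M : ℝ) * ((1 : ℝ) / 10) ^ (ex n) * (10 / 9)) := by
    have h1 := hasSum_geometric_of_lt_one (r := (1 : ℝ) / 10) (by norm_num) (by norm_num)
    have h2 := h1.mul_left ((M : ℝ) * ((1 : ℝ) / 10) ^ (ex n))
    rw [show (10 / 9 : ℝ) = (1 - 1 / 10)⁻¹ by norm_num]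
    exact h2
  exact tsum_of_norm_bounded h (norm_tm_le c M hc n)

lemma tail_succ (c : ℕ → ℤ) (M : ℕ) (hc : ∀ k, |c k| ≤ M) (n : ℕ) :
    tail c n = tm c n + tail c (n + 1) := by
  rw [tail, (summable_tail c M hc n).tsum_eq_zero_add, add_zero, tail]
  congr 2
  funext k
  congr 1
  ring

lemma partial_int (c : ℕ → ℤ) (M : ℕ) (hc : ∀ k, |c k| ≤ M) (n : ℕ) :
    ∃ z : ℤ, (10 : ℝ) ^ (ex n) * tail c 0 = z + (10 : ℝ) ^ (ex n) * tail c (n + 1) := by
  induction n with
  | zero =>
    refine ⟨c 0, ?_⟩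
    rw [tail_succ c M hc 0, tm, mul_add]
    congr 1
    rw [one_div, inv_pow]
    field_simp
  | succ n ih =>
    obtain ⟨z, hz⟩ := ih
    obtain ⟨m, hm⟩ : ∃ m, ex (n + 1) = ex n + m := ⟨ex (n + 1) - ex n, by
      have := ex_succ_ge n; omega⟩
    refine ⟨10 ^ m * z + c (n + 1), ?_⟩
    have h1 : (10 : ℝ) ^ (ex (n + 1)) * tail c 0
        = 10 ^ m * ((10 : ℝ) ^ (ex n) * tail c 0) := by rw [hm, pow_add]; ring
    rw [h1, hz, tail_succ c M hc (n + 1), tm]
    have h2 : (10 : ℝ) ^ (ex (n + 1)) * (1 / 10) ^ (ex (n + 1)) = 1 := by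
      rw [← mul_pow]; norm_num
    push_cast
    have h3 : (10 : ℝ) ^ m * (10 : ℝ) ^ (ex n) = (10 : ℝ) ^ (ex (n + 1)) := by
      rw [hm, pow_add]; ring
    linear_combination ((c (n + 1) : ℝ) * (1 / 10) ^ (ex (n + 1)) + tail c (n + 1 + 1)) * h3
      + (c (n + 1) : ℝ) * h2

/-- sums with nonzero bounded digits are irrational -/
theorem irrational_of_digits (c : ℕ → ℤ) (M : ℕ) (hc : ∀ k, |c k| ≤ M) (hc0 : ∀ k, c k ≠ 0) :
    Irrational (tail c 0) := by
  rintro ⟨q, hq⟩
  have hden : (0 : ℝ) < q.den := by exact_mod_cast q.den_pos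
  -- for large n the tail vanishes
  have hvan : ∀ n : ℕ, (q.den : ℝ) * ((M : ℝ) * 2) * (1 / 10) ^ n < 1 → tail c (n + 1) = 0 := by
    intro n hn
    obtain ⟨z, hz⟩ := partial_int c M hc n
    have hint : ∃ w : ℤ, (q.den : ℝ) * ((10 : ℝ) ^ (ex n) * tail c (n + 1)) = w := by
      refine ⟨(10 : ℤ) ^ (ex n) * q.num - q.den * z, ?_⟩
      have h1 : (q.den : ℝ) * tail c 0 = q.num := by
        rw [← hq]
        exact_mod_cast Rat.den_mul_eq_num q
      push_cast
      linear_combination (-(q.den : ℝ)) * hz + (10 : ℝ) ^ (ex n) * h1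
    obtain ⟨w, hw⟩ := hint
    have hsmall : |(w : ℝ)| < 1 := by
      rw [← hw, abs_mul, abs_mul, abs_of_pos hden, abs_of_pos (by positivity : (0:ℝ) < 10 ^ (ex n))]
      have h1 := norm_tail_le c M hc (n + 1)
      rw [Real.norm_eq_abs] at h1
      have h2 : (1 / 10 : ℝ) ^ (ex (n + 1)) ≤ (1 / 10) ^ (ex n + n) := by
        apply pow_le_pow_of_le_one (by norm_num) (by norm_num)
        have := ex_succ_ge n; omega
      have h3 : (10 : ℝ) ^ (ex n) * (1 / 10) ^ (ex n + n) = (1 / 10) ^ n := by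
        rw [pow_add, ← mul_assoc, ← mul_pow]; norm_num
      calc (q.den : ℝ) * (10 ^ (ex n) * |tail c (n + 1)|)
          ≤ (q.den : ℝ) * (10 ^ (ex n) * ((M : ℝ) * ((1 : ℝ) / 10) ^ (ex (n + 1)) * (10 / 9))) := by
            gcongr
        _ ≤ (q.den : ℝ) * (10 ^ (ex n) * ((M : ℝ) * ((1 : ℝ) / 10) ^ (ex n + n) * 2)) := by
            gcongr; norm_num
        _ = (q.den : ℝ) * ((M : ℝ) * 2) * (10 ^ (ex n) * (1 / 10) ^ (ex n + n)) := by ring
        _ = (q.den : ℝ) * ((M : ℝ) * 2) * (1 / 10) ^ n := by rw [h3]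
        _ < 1 := hn
    have hw0 : w = 0 := by
      have : |w| < 1 := by exact_mod_cast hsmall
      exact Int.abs_lt_one_iff.mp this
    rw [hw0, Int.cast_zero] at hw
    have h10 : (q.den : ℝ) ≠ 0 := hden.ne'
    have h11 : (10 : ℝ) ^ (ex n) ≠ 0 := by positivity
    rcases mul_eq_zero.mp hw with h | h
    · exact absurd h h10
    · rcases mul_eq_zero.mp h with h | h
      · exact absurd h h11
      · exact h
  have hlim : Filter.Tendsto (fun n : ℕ => (q.den : ℝ) * ((M : ℝ) * 2) * (1 / 10 : ℝ) ^ n)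
      Filter.atTop (nhds 0) := by
    have := (tendsto_pow_atTop_nhds_zero_of_lt_one (r := (1 / 10 : ℝ)) (by norm_num)
      (by norm_num)).const_mul ((q.den : ℝ) * ((M : ℝ) * 2))
    simpa using this
  obtain ⟨n₀, hn₀⟩ := Filter.eventually_atTop.mp (hlim.eventually_lt_const (u := 1) one_pos)
  have h1 := hvan n₀ (hn₀ n₀ le_rfl)
  have h2 := hvan (n₀ + 1) (hn₀ (n₀ + 1) (by omega))
  have h3 := tail_succ c M hc (n₀ + 1)
  rw [h1, h2, add_zero, tm] at h3
  have h4 : (c (n₀ + 1) : ℝ) ≠ 0 := by exact_mod_cast hc0 _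
  have h5 : ((1 : ℝ) / 10) ^ (ex (n₀ + 1)) ≠ 0 := by positivity
  exact (mul_ne_zero h4 h5) h3.symm

/-- digits `1` and `2` -/
def dig (s : ℕ → Bool) (k : ℕ) : ℤ := if s k then 2 else 1

lemma dig_bound (s : ℕ → Bool) (k : ℕ) : |dig s k| ≤ ((2 : ℕ) : ℤ) := by
  unfold dig; split_ifs <;> norm_num

/-- points of the Cantor set -/
noncomputable def pt (s : ℕ → Bool) : ℝ := tail (dig s) 0

/-- the Cantor set `{ ∑ a_k 10^{-(k+1)!} : a_k ∈ {1, 2} }` -/
def set : Set ℝ := Set.range pt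

lemma pt_eq (s : ℕ → Bool) : pt s = ∑' k, tm (dig s) k := by
  rw [pt, tail]; simp

lemma continuous_pt : Continuous pt := by
  have : pt = fun s => ∑' k, tm (dig s) k := by funext s; exact pt_eq s
  rw [this]
  apply continuous_tsum (u := fun k => (2 : ℝ) * (1 / 10) ^ (ex 0) * (1 / 10) ^ k)
  · intro k
    have hd : Continuous (fun s : ℕ → Bool => (dig s k : ℝ)) := by
      have : (fun s : ℕ → Bool => (dig s k : ℝ))
          = (fun b : Bool => (if b then (2 : ℝ) else 1)) ∘ (fun s : ℕ → Bool => s k) := by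
        funext s; simp only [dig, Function.comp]; split_ifs <;> simp
      rw [this]
      exact continuous_of_discreteTopology.comp (continuous_apply k)
    exact hd.mul continuous_const
  · exact (summable_geometric_of_lt_one (by norm_num) (by norm_num)).mul_left _
  · intro k s
    have := norm_tm_le (dig s) 2 (dig_bound s) 0 k
    simpa using this

lemma isCompact_set : IsCompact set := isCompact_range continuous_pt

lemma tail_sub (c c' : ℕ → ℤ) (M : ℕ) (hc : ∀ k, |c k| ≤ M) (hc' : ∀ k, |c' k| ≤ M) (n : ℕ)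
    (A B : ℤ) :
    tail (fun k => A * c k - B * c' k) n = A * tail c n - B * tail c' n := by
  rw [tail, tail, tail, ← tsum_mul_left, ← tsum_mul_left,
    ← ((summable_tail c M hc n).mul_left _).tsum_sub ((summable_tail c' M hc' n).mul_left _)]
  congr 1
  funext k
  simp only [tm]
  push_cast
  ring

lemma injective_pt : Function.Injective pt := by
  intro s s' h
  by_contra hne
  have hex : ∃ k, s k ≠ s' k := by
    by_contra hcon
    push Not at hcon
    exact hne (funext hcon)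
  classical
  set k₀ := Nat.find hex with hk₀
  have hk : s k₀ ≠ s' k₀ := Nat.find_spec hex
  have hlt : ∀ k < k₀, s k = s' k := fun k hk => by
    have := Nat.find_min hex hk
    push Not at this
    exact this
  have heq : ∀ n, n ≤ k₀ → tail (dig s) n = tail (dig s') n := by
    intro n
    induction n with
    | zero => intro _; exact h
    | succ n ih =>
      intro hn
      have h1 := ih (by omega)
      rw [tail_succ _ 2 (dig_bound s), tail_succ _ 2 (dig_bound s')] at h1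
      have h2 : tm (dig s) n = tm (dig s') n := by
        simp only [tm, dig, hlt n (by omega)]
      linarith
  have h0 := heq k₀ le_rfl
  rw [tail_succ _ 2 (dig_bound s), tail_succ _ 2 (dig_bound s')] at h0
  set c : ℕ → ℤ := fun k => 1 * dig s k - 1 * dig s' k with hc
  have hcb : ∀ k, |c k| ≤ ((1 : ℕ) : ℤ) := by
    intro k
    simp only [hc, dig]
    split_ifs <;> norm_num
  have h1 : tail c (k₀ + 1) = tail (dig s) (k₀ + 1) - tail (dig s') (k₀ + 1) := by
    have := tail_sub (dig s) (dig s') 2 (dig_bound s) (dig_bound s') (k₀ + 1) 1 1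
    rw [Int.cast_one, one_mul, one_mul] at this
    exact this
  have h2 := norm_tail_le c 1 hcb (k₀ + 1)
  rw [h1, Real.norm_eq_abs] at h2
  have h3 : tail (dig s) (k₀ + 1) - tail (dig s') (k₀ + 1)
      = (((dig s' k₀ - dig s k₀ : ℤ)) : ℝ) * (1 / 10) ^ (ex k₀) := by
    simp only [tm] at h0
    push_cast
    linarith
  have h4 : |(((dig s' k₀ - dig s k₀ : ℤ)) : ℝ)| = 1 := by
    have : |dig s' k₀ - dig s k₀| = 1 := by
      simp only [dig]
      cases hs : s k₀ <;> cases hs' : s' k₀ <;> simp_all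
    exact_mod_cast this
  rw [h3, abs_mul, h4, one_mul, abs_of_pos (by positivity)] at h2
  have h5 : (1 / 10 : ℝ) ^ (ex (k₀ + 1)) ≤ (1 / 10) ^ (ex k₀ + 1) := by
    apply pow_le_pow_of_le_one (by norm_num) (by norm_num)
    have := ex_succ_ge k₀; omega
  have h6 : (0 : ℝ) < (1 / 10) ^ (ex k₀) := by positivity
  rw [pow_succ] at h5
  push_cast at h2
  nlinarith

lemma aleph0_lt : Cardinal.aleph0 < Cardinal.mk (ℕ → Bool) := by
  have : Cardinal.mk (ℕ → Bool) = Cardinal.continuum := by simp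
  rw [this]; exact Cardinal.aleph0_lt_continuum

lemma not_countable_set : ¬ set.Countable := by
  intro h
  have h1 : Countable (Set.range pt) := h.to_subtype
  have h2 : Countable (ℕ → Bool) := by
    have hinj : Function.Injective (Set.rangeFactorization pt) := by
      intro a b hab
      apply injective_pt
      exact congrArg Subtype.val hab
    exact hinj.countable
  have h3 : (Cardinal.mk (ℕ → Bool)) ≤ Cardinal.aleph0 := Cardinal.mk_le_aleph0_iff.mpr h2
  exact absurd h3 (not_le.mpr aleph0_lt)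

/-- independence of the Cantor set -/
theorem indep (d : ℕ) (hd : 0 < d) (p q : ℕ) (hp : p.Prime) (hq : q.Prime) (hpq : p ≠ q)
    (α : ℝ) (hα : α ∈ set) (β : ℝ) (hβ : β ∈ set) :
    Irrational ((p : ℝ) ^ d * α - (q : ℝ) ^ d * β) := by
  obtain ⟨s, rfl⟩ := hα
  obtain ⟨s', rfl⟩ := hβ
  have h := tail_sub (dig s) (dig s') 2 (dig_bound s) (dig_bound s') 0 ((p : ℤ) ^ d) ((q : ℤ) ^ d)
  push_cast at h
  rw [pt, pt, ← h]
  apply irrational_of_digits _ (2 * p ^ d + 2 * q ^ d)
  · intro k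
    calc |(p : ℤ) ^ d * dig s k - (q : ℤ) ^ d * dig s' k|
        ≤ |(p : ℤ) ^ d * dig s k| + |(q : ℤ) ^ d * dig s' k| := abs_sub _ _
      _ = (p : ℤ) ^ d * |dig s k| + (q : ℤ) ^ d * |dig s' k| := by
          rw [abs_mul, abs_mul, abs_of_nonneg (by positivity : (0:ℤ) ≤ (p : ℤ) ^ d),
            abs_of_nonneg (by positivity : (0:ℤ) ≤ (q : ℤ) ^ d)]
      _ ≤ (p : ℤ) ^ d * 2 + (q : ℤ) ^ d * 2 := by
          apply add_le_add
          · exact mul_le_mul_of_nonneg_left (by simpa using dig_bound s k) (by positivity)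
          · exact mul_le_mul_of_nonneg_left (by simpa using dig_bound s' k) (by positivity)
      _ = _ := by push_cast; ring
  · intro k hk
    rw [sub_eq_zero] at hk
    -- one of p, q is odd and at least 3
    have hdig : ∀ t : ℕ → Bool, ∃ a : ℕ, (a = 1 ∨ a = 2) ∧ dig t k = a := by
      intro t; unfold dig
      by_cases h : t k
      · exact ⟨2, Or.inr rfl, by simp [h]⟩
      · exact ⟨1, Or.inl rfl, by simp [h]⟩
    obtain ⟨a, ha, ha'⟩ := hdig s
    obtain ⟨b, hb, hb'⟩ := hdig s'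
    rw [ha', hb'] at hk
    have hk' : p ^ d * a = q ^ d * b := by exact_mod_cast hk
    have key : ∀ (u w x y : ℕ), u.Prime → w.Prime → u ≠ w → 3 ≤ u → u ^ d * x = w ^ d * y →
        (y = 1 ∨ y = 2) → False := by
      intro u w x y hu hw huw hu3 he hy
      have h1 : u ∣ w ^ d * y := by
        rw [← he]; exact (dvd_pow_self u hd.ne').mul_right _
      rcases (Nat.Prime.dvd_mul hu).mp h1 with h2 | h2
      · exact huw ((Nat.prime_dvd_prime_iff_eq hu hw).mp (hu.dvd_of_dvd_pow h2))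
      · have := Nat.le_of_dvd (by omega) h2
        omega
    by_cases hp3 : 3 ≤ p
    · exact key p q a b hp hq hpq hp3 hk' hb
    · have hp2 : p = 2 := by have := hp.two_le; omega
      have hq3 : 3 ≤ q := by have := hq.two_le; omega
      exact key q p b a hq hp (Ne.symm hpq) hq3 hk'.symm ha

end Cantor

end Pool.Agent.Lib.MP_663568_nt
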